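import Mathlib

section

set_option autoImplicit false

open Filter Topology Asymptotics

namespace Pool.Agent.Lib.MP_cde753_nt

/-- Taylor expansion with explicit polynomial. -/
theorem taylor_isBigO {f : ℂ → ℂ} {z : ℂ} (hf : AnalyticAt ℂ f z) (n : ℕ) :
    (fun y : ℂ => f (z + y) - ∑ m ∈ Finset.range n, (iteratedDeriv m f z / (m.factorial : ℂ)) * y ^ m)
      =O[𝓝 0] (fun y : ℂ => ‖y‖ ^ n) := by
  have h := (AnalyticAt.hasFPowerSeriesAt hf).isBigO_sub_partialSum_pow n
  refine h.congr_left ?_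
  intro y
  congr 1
  simp only [FormalMultilinearSeries.partialSum]
  refine Finset.sum_congr rfl ?_
  intro m _
  simp [mul_comm]

theorem vandermonde_inv_key {n : ℕ} (T : Fin n → ℂ) (hT : Function.Injective T) (τ : ℂ)
    (l m : Fin n) :
    ∑ i : Fin n, (Matrix.vandermonde T)⁻¹ l i * (T i - τ) ^ (m : ℕ)
      = if l ≤ m then (-τ) ^ ((m : ℕ) - (l : ℕ)) * (((m : ℕ).choose (l : ℕ) : ℕ) : ℂ) else 0 := by
  have hdet : (Matrix.vandermonde T).det ≠ 0 := Matrix.det_vandermonde_ne_zero_iff.mpr hT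
  have hinv : (Matrix.vandermonde T)⁻¹ * (Matrix.vandermonde T) = 1 :=
    Matrix.nonsing_inv_mul _ (Ne.isUnit hdet)
  have hk : ∀ k : Fin n, ∑ i : Fin n, (Matrix.vandermonde T)⁻¹ l i * (T i) ^ (k : ℕ)
      = if l = k then 1 else 0 := by
    intro k
    have := congrFun (congrFun hinv l) k
    rw [Matrix.mul_apply] at this
    simpa [Matrix.one_apply] using this
  have hexp : ∀ i : Fin n, (T i - τ) ^ (m : ℕ)
      = ∑ k ∈ Finset.range ((m : ℕ) + 1), (T i) ^ k * (-τ) ^ ((m : ℕ) - k) * ((m : ℕ).choose k : ℂ) := by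
    intro i
    rw [sub_eq_add_neg, add_pow]
  simp_rw [hexp, Finset.mul_sum]
  rw [Finset.sum_comm]
  have h2 : ∀ k ∈ Finset.range ((m : ℕ) + 1),
      ∑ i : Fin n, (Matrix.vandermonde T)⁻¹ l i * ((T i) ^ k * (-τ) ^ ((m : ℕ) - k) * ((m : ℕ).choose k : ℂ))
      = if (l : ℕ) = k then (-τ) ^ ((m : ℕ) - k) * ((m : ℕ).choose k : ℂ) else 0 := by
    intro k hkm
    have hkn : k < n := by
      have := Finset.mem_range.mp hkm
      omega
    have h3 := hk ⟨k, hkn⟩
    have : ∑ i : Fin n, (Matrix.vandermonde T)⁻¹ l i * ((T i) ^ k * (-τ) ^ ((m : ℕ) - k) * ((m : ℕ).choose k : ℂ))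
      = (∑ i : Fin n, (Matrix.vandermonde T)⁻¹ l i * (T i) ^ k) * ((-τ) ^ ((m : ℕ) - k) * ((m : ℕ).choose k : ℂ)) := by
      rw [Finset.sum_mul]
      refine Finset.sum_congr rfl ?_
      intro i _
      ring
    rw [this]
    simp only at h3
    rw [h3]
    by_cases hlk : (l : ℕ) = k
    · have : l = ⟨k, hkn⟩ := Fin.ext hlk
      simp [this]
    · have : l ≠ ⟨k, hkn⟩ := fun h => hlk (congrArg Fin.val h)
      simp [this, hlk]
  rw [Finset.sum_congr rfl h2]
  rw [Finset.sum_ite_eq]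
  by_cases hlm : l ≤ m
  · have : (l : ℕ) ∈ Finset.range ((m : ℕ) + 1) := by
      rw [Finset.mem_range]
      have : (l : ℕ) ≤ (m : ℕ) := hlm
      omega
    simp [hlm]
  · have : (l : ℕ) ∉ Finset.range ((m : ℕ) + 1) := by
      rw [Finset.mem_range]
      have : ¬ (l : ℕ) ≤ (m : ℕ) := hlm
      omega
    simp only [this, if_false]
    simp [hlm]

/-- The asymptotics of determinants of analytic functions on a shrinking cluster of points. -/
theorem det_asymp {α : Type*} {l : Filter α} {n : ℕ} (φ : Fin n → ℂ → ℂ) (z : ℂ)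
    (hφ : ∀ j, AnalyticAt ℂ (φ j) z) (T : Fin n → ℂ) (hT : Function.Injective T)
    (q : α → ℝ) (hq : Tendsto q l atTop) (τ : α → ℂ) (C : ℝ) (hτ : ∀ a, ‖τ a‖ ≤ C)
    (Φ : α → Matrix (Fin n) (Fin n) ℂ)
    (hΦ : ∀ i j, Tendsto (fun a => (q a : ℂ) ^ (n - 1) * (Φ a i j - φ j (z + (T i - τ a) / q a))) l (𝓝 0)) :
    Tendsto (fun a => (q a : ℂ) ^ (∑ i : Fin n, (i : ℕ)) * (Φ a).det) l
      (𝓝 ((Matrix.vandermonde T).det *
        (Matrix.of fun i j : Fin n => iteratedDeriv (i : ℕ) (φ j) z / (((i : ℕ).factorial : ℕ) : ℂ)).det)) := by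
  set W : Matrix (Fin n) (Fin n) ℂ :=
    Matrix.of fun i j : Fin n => iteratedDeriv (i : ℕ) (φ j) z / (((i : ℕ).factorial : ℕ) : ℂ) with hW
  set V := Matrix.vandermonde T with hV
  have hdet : V.det ≠ 0 := Matrix.det_vandermonde_ne_zero_iff.mpr hT
  have hdetinv : V.det * V⁻¹.det = 1 := by
    rw [← Matrix.det_mul, Matrix.mul_nonsing_inv _ (Ne.isUnit hdet), Matrix.det_one]
  set L : α → Matrix (Fin n) (Fin n) ℂ := fun a =>
    Matrix.of fun i j : Fin n => (q a : ℂ) ^ (i : ℕ) * (V⁻¹ * Φ a) i j with hL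
  have hLdet : ∀ a, (L a).det = (q a : ℂ) ^ (∑ i : Fin n, (i : ℕ)) * (V⁻¹.det * (Φ a).det) := by
    intro a
    rw [hL]
    simp only
    rw [Matrix.det_mul_column (fun i : Fin n => (q a : ℂ) ^ (i : ℕ)) (V⁻¹ * Φ a), Matrix.det_mul,
      Finset.prod_pow_eq_pow_sum]
  have hq1 : ∀ᶠ a in l, (1 : ℝ) ≤ q a := hq.eventually_ge_atTop 1
  have hqinv : Tendsto (fun a => (q a)⁻¹) l (𝓝 0) := tendsto_inv_atTop_zero.comp hq
  -- the main claim
  have hmain : ∀ i j : Fin n, Tendsto (fun a => L a i j) l (𝓝 (W i j)) := by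
    intro i j
    have hn : 0 < n := lt_of_le_of_lt (Nat.zero_le _) i.isLt
    -- first error
    have e1 : ∀ k : Fin n, Tendsto (fun a => (q a : ℂ) ^ (i : ℕ) * (Φ a k j - φ j (z + (T k - τ a) / q a)))
        l (𝓝 0) := by
      intro k
      have h := hΦ k j
      rw [tendsto_zero_iff_norm_tendsto_zero] at h ⊢
      refine squeeze_zero' (Eventually.of_forall fun a => norm_nonneg _) ?_ h
      filter_upwards [hq1] with a ha
      rw [norm_mul, norm_mul, norm_pow, norm_pow]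
      refine mul_le_mul_of_nonneg_right ?_ (norm_nonneg _)
      have hnorm : ‖(q a : ℂ)‖ = q a := by
        rw [Complex.norm_real, Real.norm_of_nonneg (by linarith)]
      rw [hnorm]
      refine pow_le_pow_right₀ ha ?_
      have := i.isLt
      omega
    -- the points
    have hs0 : ∀ k : Fin n, Tendsto (fun a => (T k - τ a) / (q a : ℂ)) l (𝓝 0) := by
      intro k
      rw [tendsto_zero_iff_norm_tendsto_zero]
      have : Tendsto (fun a => (‖T k‖ + C) * (q a)⁻¹) l (𝓝 0) := by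
        simpa using hqinv.const_mul (‖T k‖ + C)
      refine squeeze_zero' (Eventually.of_forall fun a => norm_nonneg _) ?_ this
      filter_upwards [hq1] with a ha
      rw [norm_div, Complex.norm_real, Real.norm_of_nonneg (by linarith), div_eq_mul_inv]
      refine mul_le_mul_of_nonneg_right ?_ (by positivity)
      exact (norm_sub_le _ _).trans (add_le_add le_rfl (hτ a))
    -- second error
    have e2 : ∀ k : Fin n, Tendsto (fun a => (q a : ℂ) ^ (i : ℕ) *
        (φ j (z + (T k - τ a) / q a) - ∑ m : Fin n, W m j * ((T k - τ a) / q a) ^ (m : ℕ))) l (𝓝 0) := by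
      intro k
      have hO := (taylor_isBigO (hφ j) n).comp_tendsto (hs0 k)
      obtain ⟨B, hB⟩ := hO.bound
      have hlim : Tendsto (fun a => (|B| * (‖T k‖ + C) ^ n) * (q a)⁻¹) l (𝓝 0) := by
        simpa using hqinv.const_mul (|B| * (‖T k‖ + C) ^ n)
      rw [tendsto_zero_iff_norm_tendsto_zero]
      refine squeeze_zero' (Eventually.of_forall fun a => norm_nonneg _) ?_ hlim
      filter_upwards [hq1, hB] with a ha hBa
      simp only [Function.comp_apply] at hBa
      have hsum : ∑ m : Fin n, W m j * ((T k - τ a) / q a) ^ (m : ℕ)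
          = ∑ m ∈ Finset.range n, (iteratedDeriv m (φ j) z / (m.factorial : ℂ)) * ((T k - τ a) / q a) ^ m := by
        rw [Finset.sum_range]
        refine Finset.sum_congr rfl ?_
        intro m _
        simp [hW]
      rw [hsum, norm_mul, norm_pow, Complex.norm_real, Real.norm_of_nonneg (show 0 ≤ q a by linarith)]
      have hC0 : 0 ≤ ‖T k‖ + C := (norm_nonneg _).trans ((norm_sub_le _ _).trans (add_le_add le_rfl (hτ a)))
      have hsn : ‖(T k - τ a) / (q a : ℂ)‖ ≤ (‖T k‖ + C) * (q a)⁻¹ := by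
        rw [norm_div, Complex.norm_real, Real.norm_of_nonneg (by linarith), div_eq_mul_inv]
        refine mul_le_mul_of_nonneg_right ?_ (by positivity)
        exact (norm_sub_le _ _).trans (add_le_add le_rfl (hτ a))
      rw [norm_pow, norm_norm] at hBa
      have hqpos : 0 < q a := by linarith
      calc (q a) ^ (i : ℕ) * ‖φ j (z + (T k - τ a) / ↑(q a)) -
              ∑ m ∈ Finset.range n, iteratedDeriv m (φ j) z / ↑m.factorial * ((T k - τ a) / ↑(q a)) ^ m‖
          ≤ (q a) ^ (n - 1) * (|B| * ((‖T k‖ + C) * (q a)⁻¹) ^ n) := by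
            refine mul_le_mul ?_ ?_ (norm_nonneg _) (by positivity)
            · refine pow_le_pow_right₀ ha ?_
              have := i.isLt
              omega
            · refine hBa.trans ?_
              refine mul_le_mul (le_abs_self B) ?_ (by positivity) (abs_nonneg _)
              exact pow_le_pow_left₀ (norm_nonneg _) hsn n
        _ = (|B| * (‖T k‖ + C) ^ n) * (q a)⁻¹ := by
            obtain ⟨n', rfl⟩ : ∃ n', n = n' + 1 := ⟨n - 1, by omega⟩
            simp only [Nat.add_sub_cancel]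
            rw [mul_pow, inv_pow, pow_succ (q a) n']
            field_simp
    -- main term
    have e3 : ∀ m : Fin n, Tendsto (fun a => (q a : ℂ) ^ (i : ℕ) *
        ∑ k : Fin n, V⁻¹ i k * ((T k - τ a) / q a) ^ (m : ℕ)) l (𝓝 (if i = m then 1 else 0)) := by
      intro m
      have hrew : ∀ a, (q a : ℂ) ^ (i : ℕ) * ∑ k : Fin n, V⁻¹ i k * ((T k - τ a) / q a) ^ (m : ℕ)
          = (q a : ℂ) ^ (i : ℕ) * (((q a : ℂ) ^ (m : ℕ))⁻¹ * (if i ≤ m then (-(τ a)) ^ ((m : ℕ) - (i : ℕ)) *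
              (((m : ℕ).choose (i : ℕ) : ℕ) : ℂ) else 0)) := by
        intro a
        rw [← vandermonde_inv_key T hT (τ a) i m, Finset.mul_sum Finset.univ _ (((q a : ℂ) ^ (m : ℕ))⁻¹)]
        congr 1
        refine Finset.sum_congr rfl ?_
        intro k _
        rw [div_pow, hV]
        ring
      simp_rw [hrew]
      by_cases him : i = m
      · subst him
        simp only [le_refl, if_true, Nat.sub_self, pow_zero, Nat.choose_self, Nat.cast_one, mul_one]
        refine Tendsto.congr' ?_ tendsto_const_nhds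
        filter_upwards [hq1] with a ha
        have : (q a : ℂ) ≠ 0 := by
          norm_cast
          linarith
        field_simp
      · by_cases hle : i ≤ m
        · have hlt : (i : ℕ) < (m : ℕ) := lt_of_le_of_ne hle (fun h => him (Fin.ext h))
          simp only [hle, if_true, him, if_false]
          rw [tendsto_zero_iff_norm_tendsto_zero]
          have hC0' : 0 ≤ |C| := abs_nonneg C
          have hlim : Tendsto (fun a => (|C| ^ ((m : ℕ) - (i : ℕ)) * ((m : ℕ).choose (i : ℕ) : ℝ)) * (q a)⁻¹) l (𝓝 0) := by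
            simpa using hqinv.const_mul (|C| ^ ((m : ℕ) - (i : ℕ)) * ((m : ℕ).choose (i : ℕ) : ℝ))
          refine squeeze_zero' (Eventually.of_forall fun a => norm_nonneg _) ?_ hlim
          filter_upwards [hq1] with a ha
          have hqpos : 0 < q a := by linarith
          simp only [norm_mul, norm_pow, norm_inv, norm_neg, Complex.norm_real,
            Real.norm_of_nonneg hqpos.le, Complex.norm_natCast]
          obtain ⟨d, hd⟩ : ∃ d, (m : ℕ) = (i : ℕ) + 1 + d := ⟨(m : ℕ) - (i : ℕ) - 1, by omega⟩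
          have h1 : (q a) ^ (i : ℕ) * ((q a) ^ (m : ℕ))⁻¹ ≤ (q a)⁻¹ := by
            rw [hd, pow_add, pow_add, pow_one]
            have hpd : 1 ≤ (q a) ^ d := one_le_pow₀ ha
            rw [mul_inv, mul_inv]
            have : (q a) ^ (i : ℕ) * (((q a) ^ (i : ℕ))⁻¹ * (q a)⁻¹ * ((q a) ^ d)⁻¹) = (q a)⁻¹ * ((q a) ^ d)⁻¹ := by
              field_simp
            rw [this]
            refine mul_le_of_le_one_right (by positivity) ?_
            exact inv_le_one_of_one_le₀ hpd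
          calc (q a) ^ (i : ℕ) * (((q a) ^ (m : ℕ))⁻¹ * (‖τ a‖ ^ ((m : ℕ) - (i : ℕ)) * ((m : ℕ).choose (i : ℕ) : ℝ)))
              = ((q a) ^ (i : ℕ) * ((q a) ^ (m : ℕ))⁻¹) * (‖τ a‖ ^ ((m : ℕ) - (i : ℕ)) * ((m : ℕ).choose (i : ℕ) : ℝ)) := by ring
            _ ≤ (q a)⁻¹ * (|C| ^ ((m : ℕ) - (i : ℕ)) * ((m : ℕ).choose (i : ℕ) : ℝ)) := by
                refine mul_le_mul h1 ?_ (by positivity) (by positivity)
                refine mul_le_mul_of_nonneg_right ?_ (by positivity)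
                exact pow_le_pow_left₀ (norm_nonneg _) ((hτ a).trans (le_abs_self C)) _
            _ = _ := by ring
        · simp only [hle, if_false, him, mul_zero]
          exact tendsto_const_nhds
    -- assemble
    have hsplit : ∀ a, L a i j =
        (∑ k : Fin n, V⁻¹ i k * ((q a : ℂ) ^ (i : ℕ) * (Φ a k j - φ j (z + (T k - τ a) / q a))))
        + (∑ k : Fin n, V⁻¹ i k * ((q a : ℂ) ^ (i : ℕ) *
          (φ j (z + (T k - τ a) / q a) - ∑ m : Fin n, W m j * ((T k - τ a) / q a) ^ (m : ℕ))))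
        + ∑ m : Fin n, W m j * ((q a : ℂ) ^ (i : ℕ) *
          ∑ k : Fin n, V⁻¹ i k * ((T k - τ a) / q a) ^ (m : ℕ)) := by
      intro a
      have h3 : ∑ m : Fin n, W m j * ((q a : ℂ) ^ (i : ℕ) *
          ∑ k : Fin n, V⁻¹ i k * ((T k - τ a) / q a) ^ (m : ℕ))
          = ∑ k : Fin n, V⁻¹ i k * ((q a : ℂ) ^ (i : ℕ) * ∑ m : Fin n, W m j * ((T k - τ a) / q a) ^ (m : ℕ)) := by
        simp_rw [Finset.mul_sum]
        rw [Finset.sum_comm]
        refine Finset.sum_congr rfl ?_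
        intro k _
        refine Finset.sum_congr rfl ?_
        intro m _
        ring
      rw [h3, ← Finset.sum_add_distrib, ← Finset.sum_add_distrib]
      simp only [hL, Matrix.of_apply, Matrix.mul_apply]
      rw [Finset.mul_sum]
      refine Finset.sum_congr rfl ?_
      intro k _
      ring
    have hlim : Tendsto (fun a => L a i j) l (𝓝 ((∑ k : Fin n, V⁻¹ i k * 0) + (∑ k : Fin n, V⁻¹ i k * 0)
        + ∑ m : Fin n, W m j * (if i = m then 1 else 0))) := by
      simp_rw [hsplit]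
      refine Tendsto.add (Tendsto.add ?_ ?_) ?_
      · exact tendsto_finsetSum _ fun k _ => (e1 k).const_mul _
      · exact tendsto_finsetSum _ fun k _ => (e2 k).const_mul _
      · exact tendsto_finsetSum _ fun m _ => (e3 m).const_mul _
    simpa using hlim
  have hdetlim : Tendsto (fun a => (L a).det) l (𝓝 W.det) := by
    have hcont : Continuous fun M : Matrix (Fin n) (Fin n) ℂ => M.det := continuous_id.matrix_det
    refine (hcont.tendsto W).comp ?_
    refine tendsto_pi_nhds.mpr fun i => tendsto_pi_nhds.mpr fun j => hmain i j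
  have hfin := hdetlim.const_mul V.det
  refine hfin.congr ?_
  intro a
  rw [hLdet a]
  calc V.det * ((q a : ℂ) ^ (∑ i : Fin n, (i : ℕ)) * (V⁻¹.det * (Φ a).det))
      = (V.det * V⁻¹.det) * ((q a : ℂ) ^ (∑ i : Fin n, (i : ℕ)) * (Φ a).det) := by ring
    _ = _ := by rw [hdetinv, one_mul]

end Pool.Agent.Lib.MP_cde753_nt
end

section

section

set_option autoImplicit false

open Filter Topology MeasureTheory

namespace Pool.Agent.Lib.MP_cde753_nt

/-- An irrational number that is not `LiouvilleWith 3` has a uniform lower bound. -/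
theorem unif_bound {α : ℝ} (hirr : Irrational α) (hL : ¬ LiouvilleWith 3 α) :
    ∃ k : ℕ, ∀ (a : ℤ) (b : ℕ), 1 ≤ b → (1 / ((k : ℝ) + 1)) / (b : ℝ) ^ 3 ≤ |α - (a : ℝ) / (b : ℝ)| := by
  unfold LiouvilleWith at hL
  push Not at hL
  have h1 := hL 1
  rw [Filter.eventually_atTop] at h1
  obtain ⟨n₀, hn₀⟩ := h1
  -- for each b >= 1, a bound eventually in k
  have h2 : ∀ b ∈ Finset.range n₀, ∀ᶠ k : ℕ in atTop, 1 ≤ b → ∀ a : ℤ,
      (1 / ((k : ℝ) + 1)) / (b : ℝ) ^ 3 ≤ |α - (a : ℝ) / (b : ℝ)| := by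
    intro b _
    by_cases hb : 1 ≤ b
    · have hbpos : (0 : ℝ) < b := by exact_mod_cast hb
      set δ : ℝ := |(b : ℝ) * α - round ((b : ℝ) * α)| with hδ
      have hδpos : 0 < δ := by
        rw [hδ, abs_pos]
        intro h0
        have hirr' : Irrational ((b : ℝ) * α) := by
          have : Irrational (((b : ℕ) : ℝ) * α) := Irrational.natCast_mul hirr (by omega)
          exact this
        exact (hirr'.ne_int (round ((b : ℝ) * α))) (sub_eq_zero.mp h0)
      have hlim : Tendsto (fun k : ℕ => (1 / ((k : ℝ) + 1)) / (b : ℝ) ^ 3) atTop (𝓝 (0 / (b : ℝ) ^ 3)) :=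
        tendsto_one_div_add_atTop_nhds_zero_nat.div_const _
      rw [zero_div] at hlim
      have hev := hlim.eventually_lt_const (show (0 : ℝ) < δ / b by positivity)
      filter_upwards [hev] with k hk _ a
      refine hk.le.trans ?_
      have h3 : |α - (a : ℝ) / (b : ℝ)| = |(b : ℝ) * α - a| / b := by
        rw [← abs_of_pos hbpos, ← abs_div, abs_of_pos hbpos]
        congr 1
        field_simp
      rw [h3]
      exact div_le_div_of_nonneg_right (round_le _ _) hbpos.le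
    · exact Eventually.of_forall fun k h => absurd h hb
  have h4 : ∀ᶠ k : ℕ in atTop, ∀ b ∈ Finset.range n₀, 1 ≤ b → ∀ a : ℤ,
      (1 / ((k : ℝ) + 1)) / (b : ℝ) ^ 3 ≤ |α - (a : ℝ) / (b : ℝ)| := by
    rw [Filter.eventually_all_finset]
    exact h2
  obtain ⟨k, hk⟩ := h4.exists
  refine ⟨k, ?_⟩
  intro a b hb
  by_cases hbn : b < n₀
  · exact hk b (Finset.mem_range.mpr hbn) hb a
  · have h5 := hn₀ b (not_lt.mp hbn) a
    have hbpos : (0 : ℝ) < b := by exact_mod_cast hb
    have hne : α ≠ (a : ℝ) / (b : ℝ) := by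
      intro h
      apply hirr
      refine ⟨(a : ℚ) / (b : ℚ), ?_⟩
      rw [h]
      push_cast
      rfl
    have h6 := h5 hne
    have h7 : (b : ℝ) ^ (3 : ℝ) = (b : ℝ) ^ (3 : ℕ) := by
      rw [← Real.rpow_natCast]
      norm_num
    rw [h7] at h6
    refine le_trans ?_ h6
    have hk1 : (1 / ((k : ℝ) + 1)) ≤ 1 := by
      rw [div_le_one (by positivity)]
      have : (0 : ℝ) ≤ k := Nat.cast_nonneg k
      linarith
    exact div_le_div_of_nonneg_right hk1 (by positivity)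

/-- An uncountable set of uniformly badly approximable numbers (exponent 3). -/
theorem exists_uncountable : ∃ c₀ : ℝ, 0 < c₀ ∧ ∃ A : Set ℝ, ¬ A.Countable ∧ ∀ α ∈ A, 0 ≤ α ∧ α ≤ 1 ∧
    ∀ (a : ℤ) (b : ℕ), 1 ≤ b → c₀ / (b : ℝ) ^ 3 ≤ |α - (a : ℝ) / (b : ℝ)| := by
  by_contra hcon
  push Not at hcon
  set E : ℕ → Set ℝ := fun k => {α : ℝ | 0 ≤ α ∧ α ≤ 1 ∧ ∀ (a : ℤ) (b : ℕ), 1 ≤ b →
    (1 / ((k : ℝ) + 1)) / (b : ℝ) ^ 3 ≤ |α - (a : ℝ) / (b : ℝ)|} with hE
  have hEc : ∀ k, (E k).Countable := by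
    intro k
    by_contra hk
    obtain ⟨α, hα, h⟩ := hcon (1 / ((k : ℝ) + 1)) (by positivity) (E k) hk
    obtain ⟨a, b, hb, hlt⟩ := h hα.1 hα.2.1
    exact absurd (hα.2.2 a b hb) (not_le.mpr hlt)
  have hU : (⋃ k, E k).Countable := Set.countable_iUnion hEc
  have h1 : ∀ᵐ x : ℝ, x ∉ ⋃ k, E k := hU.ae_notMem volume
  have h2 : ∀ᵐ x : ℝ, x ∉ Set.range ((↑) : ℚ → ℝ) := (Set.countable_range _).ae_notMem volume
  have h3 := ae_not_liouvilleWith
  have h4 : ∀ᵐ x : ℝ, x ∉ Set.Icc (0 : ℝ) 1 := by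
    filter_upwards [h1, h2, h3] with x hx1 hx2 hx3 hx4
    obtain ⟨k, hk⟩ := unif_bound (α := x) hx2 (hx3 3 (by norm_num))
    exact hx1 (Set.mem_iUnion.mpr ⟨k, hx4.1, hx4.2, hk⟩)
  have h5 : volume (Set.Icc (0 : ℝ) 1) = 0 := by
    have := measure_eq_zero_iff_ae_notMem.mpr h4
    exact this
  simp at h5

/-- Approximation of any real by one with a uniform Diophantine bound, avoiding a countable set. -/
theorem exists_approx : ∃ c₀ : ℝ, 0 < c₀ ∧ ∀ (N : ℕ), 1 ≤ N → ∀ (y : ℝ) (Z : Set ℝ), Z.Countable →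
    ∃ y' : ℝ, |y' - y| ≤ 1 / (N : ℝ) ∧ y' ∉ Z ∧
      ∀ (a : ℤ) (b : ℕ), 1 ≤ b → c₀ / ((N : ℝ) * (b : ℝ) ^ 3) ≤ |y' - (a : ℝ) / (b : ℝ)| := by
  obtain ⟨c₀, hc₀, A, hA, hAp⟩ := exists_uncountable
  refine ⟨c₀, hc₀, ?_⟩
  intro N hN y Z hZ
  have hNpos : (0 : ℝ) < N := by exact_mod_cast hN
  set m : ℤ := ⌊(N : ℝ) * y⌋ with hm
  -- the preimage of Z is countable
  have hinj : Function.Injective (fun α : ℝ => ((m : ℝ) + α) / N) := by
    intro α β h
    simp only at h
    rw [div_left_inj' hNpos.ne'] at h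
    linarith
  have hpre : ((fun α : ℝ => ((m : ℝ) + α) / N) ⁻¹' Z).Countable := hZ.preimage_of_injOn hinj.injOn
  obtain ⟨α, hαA, hαZ⟩ : ∃ α ∈ A, α ∉ (fun α : ℝ => ((m : ℝ) + α) / N) ⁻¹' Z := by
    by_contra h
    push Not at h
    exact hA (hpre.mono h)
  obtain ⟨hα0, hα1, hα⟩ := hAp α hαA
  refine ⟨((m : ℝ) + α) / N, ?_, hαZ, ?_⟩
  · have h1 : ((m : ℝ) + α) / N - y = (α - Int.fract ((N : ℝ) * y)) / N := by
      rw [Int.fract, ← hm]
      field_simp
      ring
    rw [h1, abs_div, abs_of_pos hNpos]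
    refine div_le_div_of_nonneg_right ?_ hNpos.le
    have := Int.fract_nonneg ((N : ℝ) * y)
    have := Int.fract_lt_one ((N : ℝ) * y)
    rw [abs_le]
    constructor <;> linarith
  · intro a b hb
    have hbpos : (0 : ℝ) < b := by exact_mod_cast hb
    have h1 := hα (a * N - m * b) b hb
    have h2 : ((m : ℝ) + α) / N - (a : ℝ) / b = (α - ((a * N - m * b : ℤ) : ℝ) / b) / N := by
      push_cast
      field_simp
      ring
    rw [h2, abs_div, abs_of_pos hNpos]
    calc c₀ / ((N : ℝ) * (b : ℝ) ^ 3) = (c₀ / (b : ℝ) ^ 3) / N := by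
          rw [div_div, mul_comm]
      _ ≤ _ := div_le_div_of_nonneg_right h1 hNpos.le

end Pool.Agent.Lib.MP_cde753_nt
end

section

set_option autoImplicit false

open Filter Topology

namespace Pool.Agent.Lib.MP_cde753_nt

theorem differentiable_iteratedDeriv' {f : ℂ → ℂ} (hf : Differentiable ℂ f) (n : ℕ) :
    Differentiable ℂ (iteratedDeriv n f) := by
  have h : ContDiff ℂ (⊤ : ℕ∞) f := hf.contDiff
  exact h.differentiable_iteratedDeriv n (by exact_mod_cast WithTop.coe_lt_top n)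

theorem differentiable_det {n : ℕ} {A : ℂ → Matrix (Fin n) (Fin n) ℂ}
    (hA : ∀ i j, Differentiable ℂ (fun z => A z i j)) : Differentiable ℂ (fun z => (A z).det) := by
  simp only [Matrix.det_apply]
  refine Differentiable.fun_sum fun σ _ => ?_
  refine Differentiable.const_smul ?_ _
  refine Differentiable.fun_finsetProd fun i _ => hA _ _

/-- If the Wronskian of entire functions vanishes on a nonempty open set, then the functions are
linearly dependent on some nonempty open set. -/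
theorem wronskian_dependent (n : ℕ) : ∀ (φ : Fin n → ℂ → ℂ) (_ : ∀ j, Differentiable ℂ (φ j))
    (U : Set ℂ) (_ : IsOpen U) (_ : U.Nonempty)
    (_ : ∀ z ∈ U, (Matrix.of fun i j : Fin n => iteratedDeriv (i : ℕ) (φ j) z).det = 0),
    ∃ U' : Set ℂ, IsOpen U' ∧ U'.Nonempty ∧ ∃ c : Fin n → ℂ, c ≠ 0 ∧ ∀ z ∈ U', ∑ j, c j * φ j z = 0 := by
  induction n with
  | zero =>
    intro φ hφ U hU hne h
    obtain ⟨z, hz⟩ := hne
    have := h z hz
    simp at this
  | succ n ih =>
    intro φ hφ U hU hne h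
    have hd : ∀ (i : ℕ) (j : Fin (n + 1)), Differentiable ℂ (iteratedDeriv i (φ j)) :=
      fun i j => differentiable_iteratedDeriv' (hφ j) i
    by_cases hcase : ∀ z ∈ U,
        (Matrix.of fun i j : Fin n => iteratedDeriv (i : ℕ) (φ (Fin.castSucc j)) z).det = 0
    · obtain ⟨U', hU'o, hU'ne, c, hc, hcz⟩ := ih (fun j => φ (Fin.castSucc j)) (fun j => hφ _) U hU hne hcase
      refine ⟨U', hU'o, hU'ne, Fin.snoc c 0, ?_, ?_⟩
      · intro h0
        apply hc
        funext j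
        have := congrFun h0 (Fin.castSucc j)
        simpa using this
      · intro z hz
        rw [Fin.sum_univ_castSucc]
        simpa using hcz z hz
    · push Not at hcase
      obtain ⟨z₁, hz₁, hWz₁⟩ := hcase
      set A : ℂ → Matrix (Fin n) (Fin n) ℂ := fun z =>
        Matrix.of fun i j : Fin n => iteratedDeriv (i : ℕ) (φ (Fin.castSucc j)) z with hA
      set b : ℂ → Fin n → ℂ := fun z i => iteratedDeriv (i : ℕ) (φ (Fin.last n)) z with hb
      have hAd : ∀ i j, Differentiable ℂ (fun z => A z i j) := fun i j => hd _ _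
      have hdetd : Differentiable ℂ (fun z => (A z).det) := differentiable_det hAd
      have hnhds : {z | (A z).det ≠ 0} ∩ U ∈ 𝓝 z₁ := by
        refine inter_mem ?_ (hU.mem_nhds hz₁)
        exact hdetd.continuous.continuousAt.eventually_ne hWz₁
      obtain ⟨r, hr, hball⟩ := Metric.mem_nhds_iff.mp hnhds
      -- Cramer coefficients
      set c : ℂ → Fin n → ℂ := fun z j => ((A z).det)⁻¹ * ((A z).updateCol j (b z)).det with hc
      have hAc : ∀ z ∈ Metric.ball z₁ r, (A z).mulVec (c z) = b z := by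
        intro z hz
        have hdet : (A z).det ≠ 0 := (hball hz).1
        have h1 := Matrix.mulVec_cramer (A z) (b z)
        have h2 : c z = ((A z).det)⁻¹ • (A z).cramer (b z) := by
          funext j
          simp [hc, Matrix.cramer_apply]
        rw [h2, Matrix.mulVec_smul, h1, smul_smul, inv_mul_cancel₀ hdet, one_smul]
      have hinj : ∀ z ∈ Metric.ball z₁ r, ∀ u : Fin n → ℂ, (A z).mulVec u = 0 → u = 0 := by
        intro z hz u hu
        have hdet : (A z).det ≠ 0 := (hball hz).1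
        by_contra hne0
        exact hdet (Matrix.exists_mulVec_eq_zero_iff.mp ⟨u, hne0, hu⟩)
      -- the full system
      have hfull : ∀ z ∈ Metric.ball z₁ r, ∀ i : ℕ, i < n + 1 →
          ∑ j, c z j * iteratedDeriv i (φ (Fin.castSucc j)) z = iteratedDeriv i (φ (Fin.last n)) z := by
        intro z hz
        have hz0 := h z (hball hz).2
        obtain ⟨v, hv0, hv⟩ := Matrix.exists_mulVec_eq_zero_iff.mpr hz0
        have hrow : ∀ i : ℕ, i < n + 1 → ∑ j : Fin n, v (Fin.castSucc j) * iteratedDeriv i (φ (Fin.castSucc j)) z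
            + v (Fin.last n) * iteratedDeriv i (φ (Fin.last n)) z = 0 := by
          intro i hi
          have := congrFun hv ⟨i, hi⟩
          simp only [Matrix.mulVec, dotProduct, Matrix.of_apply, Pi.zero_apply] at this
          rw [Fin.sum_univ_castSucc] at this
          rw [← this]
          congr 1
          · refine Finset.sum_congr rfl ?_
            intro j _
            ring
          · ring
        have hlast : v (Fin.last n) ≠ 0 := by
          intro hl
          apply hv0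
          have h0 : (fun j : Fin n => v (Fin.castSucc j)) = 0 := by
            apply hinj z hz
            funext i
            have := hrow i (by omega)
            rw [hl, zero_mul, add_zero] at this
            simp only [Matrix.mulVec, dotProduct, Pi.zero_apply, hA, Matrix.of_apply]
            rw [← this]
            refine Finset.sum_congr rfl ?_
            intro j _
            ring
          funext j
          refine Fin.lastCases ?_ (fun j => ?_) j
          · simpa using hl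
          · exact congrFun h0 j
        have hcz : c z = fun j => - v (Fin.castSucc j) / v (Fin.last n) := by
          have : c z - (fun j => - v (Fin.castSucc j) / v (Fin.last n)) = 0 := by
            apply hinj z hz
            rw [Matrix.mulVec_sub, hAc z hz, sub_eq_zero]
            funext i
            have h1 := hrow i (by omega)
            simp only [Matrix.mulVec, dotProduct, hA, hb, Matrix.of_apply]
            have h2 : ∑ j : Fin n, iteratedDeriv (i : ℕ) (φ (Fin.castSucc j)) z * (-v (Fin.castSucc j) / v (Fin.last n))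
                = - (∑ j : Fin n, v (Fin.castSucc j) * iteratedDeriv (i : ℕ) (φ (Fin.castSucc j)) z) / v (Fin.last n) := by
              rw [← Finset.sum_neg_distrib, Finset.sum_div]
              refine Finset.sum_congr rfl ?_
              intro j _
              ring
            rw [h2, eq_div_iff hlast]
            linear_combination h1
          exact sub_eq_zero.mp this
        intro i hi
        have h1 := hrow i hi
        rw [hcz]
        have h2 : ∑ j : Fin n, (-v (Fin.castSucc j) / v (Fin.last n)) * iteratedDeriv i (φ (Fin.castSucc j)) z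
            = - (∑ j : Fin n, v (Fin.castSucc j) * iteratedDeriv i (φ (Fin.castSucc j)) z) / v (Fin.last n) := by
          rw [← Finset.sum_neg_distrib, Finset.sum_div]
          refine Finset.sum_congr rfl ?_
          intro j _
          ring
        rw [h2, div_eq_iff hlast]
        linear_combination -h1
      -- differentiability of the coefficients
      have hcd : ∀ j, ∀ z ∈ Metric.ball z₁ r, DifferentiableAt ℂ (fun z => c z j) z := by
        intro j z hz
        have hdet : (A z).det ≠ 0 := (hball hz).1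
        refine DifferentiableAt.mul (DifferentiableAt.inv hdetd.differentiableAt hdet) ?_
        have : Differentiable ℂ (fun z => ((A z).updateCol j (b z)).det) := by
          apply differentiable_det
          intro i k
          by_cases hkj : k = j
          · subst hkj
            simpa [Matrix.updateCol_apply] using hd i (Fin.last n)
          · simpa [Matrix.updateCol_apply, hkj] using hAd i k
        exact this.differentiableAt
      have hcder : ∀ z ∈ Metric.ball z₁ r, ∀ j, deriv (fun z => c z j) z = 0 := by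
        intro z hz
        have h0 : (fun j => deriv (fun z => c z j) z) = 0 := by
          apply hinj z hz
          funext i
          have hi1 : (i : ℕ) < n + 1 := by omega
          have hev : (fun w => ∑ j, c w j * iteratedDeriv (i : ℕ) (φ (Fin.castSucc j)) w)
              =ᶠ[𝓝 z] (fun w => iteratedDeriv (i : ℕ) (φ (Fin.last n)) w) := by
            filter_upwards [Metric.isOpen_ball.mem_nhds hz] with w hw using hfull w hw i hi1
          have hder := hev.deriv_eq
          have hL : deriv (fun w => ∑ j, c w j * iteratedDeriv (i : ℕ) (φ (Fin.castSucc j)) w) z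
              = ∑ j, (deriv (fun w => c w j) z * iteratedDeriv (i : ℕ) (φ (Fin.castSucc j)) z
                  + c z j * iteratedDeriv ((i : ℕ) + 1) (φ (Fin.castSucc j)) z) := by
            rw [deriv_fun_sum]
            · refine Finset.sum_congr rfl ?_
              intro j _
              rw [deriv_fun_mul (hcd j z hz) (hd _ _).differentiableAt, iteratedDeriv_succ]
            · intro j _
              exact (hcd j z hz).mul (hd _ _).differentiableAt
          have hR : deriv (fun w => iteratedDeriv (i : ℕ) (φ (Fin.last n)) w) z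
              = iteratedDeriv ((i : ℕ) + 1) (φ (Fin.last n)) z := by
            rw [iteratedDeriv_succ]
          rw [hL, hR, Finset.sum_add_distrib, hfull z hz ((i : ℕ) + 1) (by omega)] at hder
          simp only [Matrix.mulVec, dotProduct, Pi.zero_apply, hA, Matrix.of_apply]
          have h5 : ∑ j, deriv (fun w => c w j) z * iteratedDeriv (i : ℕ) (φ (Fin.castSucc j)) z = 0 := by
            linear_combination hder
          rw [← h5]
          refine Finset.sum_congr rfl ?_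
          intro j _
          ring
        intro j
        exact congrFun h0 j
      have hconst : ∀ z ∈ Metric.ball z₁ r, ∀ j, c z j = c z₁ j := by
        intro z hz j
        refine IsOpen.is_const_of_deriv_eq_zero (𝕜 := ℂ) (s := Metric.ball z₁ r) (f := fun z => c z j)
          Metric.isOpen_ball ?_ ?_ ?_ hz (Metric.mem_ball_self hr)
        · exact (convex_ball z₁ r).isPreconnected
        · intro w hw
          exact (hcd j w hw).differentiableWithinAt
        · intro w hw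
          exact hcder w hw j
      refine ⟨Metric.ball z₁ r, Metric.isOpen_ball, ⟨z₁, Metric.mem_ball_self hr⟩, Fin.snoc (c z₁) (-1), ?_, ?_⟩
      · intro h0
        have := congrFun h0 (Fin.last n)
        simp at this
      · intro z hz
        rw [Fin.sum_univ_castSucc]
        simp only [Fin.snoc_castSucc, Fin.snoc_last]
        have h1 := hfull z hz 0 (by omega)
        simp only [iteratedDeriv_zero] at h1
        have h2 : ∑ j, c z₁ j * φ (Fin.castSucc j) z = ∑ j, c z j * φ (Fin.castSucc j) z := by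
          refine Finset.sum_congr rfl ?_
          intro j _
          rw [hconst z hz j]
        rw [h2, h1]
        ring

/-- For linearly independent entire functions the zeros of the Wronskian form a countable set. -/
theorem wronskian_zeros_countable {n : ℕ} (φ : Fin n → ℂ → ℂ) (hφ : ∀ j, Differentiable ℂ (φ j))
    (hind : ∀ c : Fin n → ℂ, (∀ z, ∑ j, c j * φ j z = 0) → c = 0) :
    {z : ℂ | (Matrix.of fun i j : Fin n => iteratedDeriv (i : ℕ) (φ j) z).det = 0}.Countable := by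
  set w : ℂ → ℂ := fun z => (Matrix.of fun i j : Fin n => iteratedDeriv (i : ℕ) (φ j) z).det with hw
  have hwd : Differentiable ℂ w :=
    differentiable_det (fun i j => differentiable_iteratedDeriv' (hφ j) i)
  have hwa : AnalyticOnNhd ℂ w Set.univ := fun z _ => hwd.analyticAt z
  have hne : ∃ z, w z ≠ 0 := by
    by_contra hall
    push Not at hall
    obtain ⟨U', hU'o, ⟨z₀, hz₀⟩, c, hc, hcz⟩ := wronskian_dependent n φ hφ Set.univ isOpen_univ
      Set.univ_nonempty (fun z _ => hall z)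
    apply hc
    apply hind
    have hsd : Differentiable ℂ (fun z => ∑ j, c j * φ j z) :=
      Differentiable.fun_sum fun j _ => (hφ j).const_mul _
    have hsa : AnalyticOnNhd ℂ (fun z => ∑ j, c j * φ j z) Set.univ := fun z _ => hsd.analyticAt z
    have h0a : AnalyticOnNhd ℂ (fun _ : ℂ => (0 : ℂ)) Set.univ := analyticOnNhd_const
    have hev : (fun z => ∑ j, c j * φ j z) =ᶠ[𝓝 z₀] (fun _ => (0 : ℂ)) := by
      filter_upwards [hU'o.mem_nhds hz₀] with z hz using hcz z hz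
    have := hsa.eq_of_eventuallyEq h0a hev
    intro z
    exact congrFun this z
  obtain ⟨z₁, hz₁⟩ := hne
  have hcod : w ⁻¹' {0}ᶜ ∈ codiscrete ℂ := by
    have := hwa.preimage_zero_mem_codiscrete hz₁
    exact this
  have hdisc : IsDiscrete {z : ℂ | w z = 0} := by
    have := (mem_codiscrete'.mp hcod).2
    have hset : (w ⁻¹' {0}ᶜ)ᶜ = {z : ℂ | w z = 0} := by
      ext z
      simp
    rwa [hset] at this
  exact IsLindelof.countable_of_isDiscrete (HereditarilyLindelofSpace.isLindelof _) hdisc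

end Pool.Agent.Lib.MP_cde753_nt
end

section

set_option autoImplicit false

open Filter Topology

namespace Pool.Agent.Lib.MP_cde753_nt

/-- The functions `1, z, ..., z^J, f, z f, ..., z^J f`. -/
def phi (f : ℂ → ℂ) (J : ℕ) : Fin ((J + 1) + (J + 1)) → ℂ → ℂ :=
  Fin.append (fun (k : Fin (J + 1)) (z : ℂ) => z ^ (k : ℕ)) (fun (k : Fin (J + 1)) (z : ℂ) => z ^ (k : ℕ) * f z)

theorem phi_differentiable {f : ℂ → ℂ} (hf : Differentiable ℂ f) (J : ℕ) (j : Fin ((J + 1) + (J + 1))) :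
    Differentiable ℂ (phi f J j) := by
  refine Fin.addCases (fun k => ?_) (fun k => ?_) j
  · simp only [phi, Fin.append_left]
    fun_prop
  · simp only [phi, Fin.append_right]
    fun_prop

/-- The Wronskian of the functions `phi f J`. -/
noncomputable def wr (f : ℂ → ℂ) (J : ℕ) (z : ℂ) : ℂ :=
  (Matrix.of fun i j : Fin ((J + 1) + (J + 1)) => iteratedDeriv (i : ℕ) (phi f J j) z).det

/-- If `A = B f` with `B ≠ 0` and `f` entire, then `f` is a polynomial. -/
theorem poly_of_quot {f : ℂ → ℂ} (hf : Continuous f) : ∀ (d : ℕ) (A B : Polynomial ℂ), B ≠ 0 →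
    B.natDegree = d → (∀ z, A.eval z = B.eval z * f z) → ∃ p : Polynomial ℂ, ∀ z : ℂ, f z = p.eval z := by
  intro d
  induction d with
  | zero =>
    intro A B hB hd h
    obtain ⟨b, rfl⟩ : ∃ b, B = Polynomial.C b := ⟨_, Polynomial.eq_C_of_natDegree_eq_zero hd⟩
    have hb : b ≠ 0 := by
      rintro rfl
      simp at hB
    refine ⟨Polynomial.C b⁻¹ * A, ?_⟩
    intro z
    have := h z
    simp only [Polynomial.eval_C, Polynomial.eval_mul] at this ⊢
    rw [this]
    field_simp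
  | succ d ih =>
    intro A B hB hd h
    have hdeg : B.degree ≠ 0 := by
      intro h0
      rw [Polynomial.degree_eq_natDegree hB, hd] at h0
      exact absurd h0 (by norm_cast)
    obtain ⟨α, hα⟩ := IsAlgClosed.exists_root B hdeg
    have hBroot : B.IsRoot α := hα
    have hAroot : A.IsRoot α := by
      have := h α
      rw [Polynomial.IsRoot.def] at hBroot ⊢
      rw [this, hBroot, zero_mul]
    obtain ⟨A', rfl⟩ := Polynomial.dvd_iff_isRoot.mpr hAroot
    obtain ⟨B', rfl⟩ := Polynomial.dvd_iff_isRoot.mpr hBroot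
    have hB' : B' ≠ 0 := right_ne_zero_of_mul hB
    have hd' : B'.natDegree = d := by
      rw [Polynomial.natDegree_mul (Polynomial.X_sub_C_ne_zero α) hB', Polynomial.natDegree_X_sub_C] at hd
      omega
    refine ih A' B' hB' hd' ?_
    have hne : ∀ z, z ≠ α → A'.eval z = B'.eval z * f z := by
      intro z hz
      have h1 := h z
      simp only [Polynomial.eval_mul, Polynomial.eval_sub, Polynomial.eval_X, Polynomial.eval_C] at h1
      have h2 : (z - α) * (A'.eval z - B'.eval z * f z) = 0 := by linear_combination h1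
      rcases mul_eq_zero.mp h2 with h3 | h3
      · exact absurd (sub_eq_zero.mp h3) hz
      · exact sub_eq_zero.mp h3
    have hcl : Dense ({α}ᶜ : Set ℂ) := dense_compl_singleton α
    have heq : (fun z => A'.eval z) = (fun z => B'.eval z * f z) := by
      refine Continuous.ext_on hcl (by fun_prop) (by fun_prop) ?_
      intro z hz
      exact hne z hz
    intro z
    exact congrFun heq z

theorem phi_independent {f : ℂ → ℂ} (hf : Continuous f) (hnp : ¬ ∃ p : Polynomial ℂ, ∀ z : ℂ, f z = p.eval z)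
    (J : ℕ) (c : Fin ((J + 1) + (J + 1)) → ℂ) (hc : ∀ z, ∑ j, c j * phi f J j z = 0) : c = 0 := by
  set A : Polynomial ℂ := ∑ k : Fin (J + 1), Polynomial.monomial (k : ℕ) (c (Fin.castAdd (J + 1) k)) with hA
  set B : Polynomial ℂ := ∑ k : Fin (J + 1), Polynomial.monomial (k : ℕ) (c (Fin.natAdd (J + 1) k)) with hB
  have hAcoeff : ∀ k : Fin (J + 1), A.coeff k = c (Fin.castAdd (J + 1) k) := by
    intro k
    rw [hA, Polynomial.finsetSum_coeff]
    simp only [Polynomial.coeff_monomial]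
    rw [Finset.sum_eq_single k]
    · simp
    · intro b _ hb
      rw [if_neg]
      intro h
      exact hb (Fin.ext h)
    · simp
  have hBcoeff : ∀ k : Fin (J + 1), B.coeff k = c (Fin.natAdd (J + 1) k) := by
    intro k
    rw [hB, Polynomial.finsetSum_coeff]
    simp only [Polynomial.coeff_monomial]
    rw [Finset.sum_eq_single k]
    · simp
    · intro b _ hb
      rw [if_neg]
      intro h
      exact hb (Fin.ext h)
    · simp
  have heval : ∀ z, A.eval z + B.eval z * f z = 0 := by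
    intro z
    have h := hc z
    rw [Fin.sum_univ_add] at h
    simp only [phi, Fin.append_left, Fin.append_right] at h
    rw [hA, hB, Polynomial.eval_finsetSum, Polynomial.eval_finsetSum]
    simp only [Polynomial.eval_monomial]
    rw [← h, Finset.sum_mul]
    congr 1
    refine Finset.sum_congr rfl ?_
    intro k _
    ring
  have hB0 : B = 0 := by
    by_contra hB0
    apply hnp
    refine poly_of_quot hf B.natDegree (-A) B hB0 rfl ?_
    intro z
    rw [Polynomial.eval_neg]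
    linear_combination (-1 : ℂ) * heval z
  have hA0 : A = 0 := by
    apply Polynomial.funext
    intro z
    have := heval z
    rw [hB0] at this
    simpa using this
  funext j
  refine Fin.addCases (fun k => ?_) (fun k => ?_) j
  · rw [← hAcoeff k, hA0]
    simp
  · rw [← hBcoeff k, hB0]
    simp

theorem wr_zeros_countable {f : ℂ → ℂ} (hf : Differentiable ℂ f)
    (hnp : ¬ ∃ p : Polynomial ℂ, ∀ z : ℂ, f z = p.eval z) (J : ℕ) : {z : ℂ | wr f J z = 0}.Countable :=
  wronskian_zeros_countable (phi f J) (phi_differentiable hf J) (phi_independent hf.continuous hnp J)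

/-- `t` is bad for `(J, Q)` if `g((⌊Q x⌋ + t)/Q)` is too close to a rational number with
denominator in the `J`-th range. -/
def Bad (g : ℝ → ℝ) (x : ℝ) (J Q t : ℕ) : Prop :=
  ∃ (a : ℤ) (b : ℕ), 1 ≤ b ∧ Q ^ (J + 1) ≤ b ^ 8 ∧ b ^ 4 ≤ Q ^ (2 * J + 1) ∧
    |g (((⌊(Q : ℝ) * x⌋ : ℝ) + (t : ℝ)) / (Q : ℝ)) - (a : ℝ) / (b : ℝ)| < 1 / (b : ℝ) ^ 16

theorem few_bad {f : ℂ → ℂ} (hf : Differentiable ℂ f) {g : ℝ → ℝ} (hg : ∀ x : ℝ, f (x : ℂ) = (g x : ℂ))
    {x : ℝ} {J : ℕ} (hW : wr f J (x : ℂ) ≠ 0)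
    (T : Fin ((J + 1) + (J + 1)) → ℕ) (hT : Function.Injective T) :
    ∀ᶠ Q : ℕ in atTop, ¬ ∀ i, Bad g x J Q (T i) := by
  by_contra hcon
  have hfreq : ∃ᶠ Q : ℕ in atTop, ∀ i, Bad g x J Q (T i) := by
    simpa [Filter.Frequently] using hcon
  set S : Set ℕ := {Q | ∀ i, Bad g x J Q (T i)} with hS
  set l : Filter ℕ := atTop ⊓ 𝓟 S with hl
  have : NeBot l := Filter.frequently_mem_iff_neBot.mp hfreq
  have hSl : ∀ᶠ Q in l, Q ∈ S := by
    rw [hl]
    exact Filter.mem_inf_of_right (mem_principal_self S)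
  have hlt : l ≤ atTop := inf_le_left
  have hex : ∀ (Q : ℕ) (i : Fin ((J + 1) + (J + 1))), ∃ (a : ℤ) (b : ℕ), Q ∈ S →
      (1 ≤ b ∧ Q ^ (J + 1) ≤ b ^ 8 ∧ b ^ 4 ≤ Q ^ (2 * J + 1) ∧
      |g (((⌊(Q : ℝ) * x⌋ : ℝ) + ((T i : ℕ) : ℝ)) / (Q : ℝ)) - (a : ℝ) / (b : ℝ)| < 1 / (b : ℝ) ^ 16) := by
    intro Q i
    by_cases hQ : Q ∈ S
    · obtain ⟨a, b, h⟩ := hQ i
      exact ⟨a, b, fun _ => h⟩
    · exact ⟨0, 0, fun h => absurd h hQ⟩
  choose a b hab using hex
  set X : ℕ → Fin ((J + 1) + (J + 1)) → ℝ := fun Q i => ((⌊(Q : ℝ) * x⌋ : ℝ) + ((T i : ℕ) : ℝ)) / (Q : ℝ) with hX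
  set τ : ℕ → ℂ := fun Q => ((Int.fract ((Q : ℝ) * x) : ℝ) : ℂ) with hτ
  set Φ : ℕ → Matrix (Fin ((J + 1) + (J + 1))) (Fin ((J + 1) + (J + 1))) ℂ := fun Q =>
    Matrix.of fun i j => Fin.append (fun k : Fin (J + 1) => ((X Q i : ℝ) : ℂ) ^ (k : ℕ))
      (fun k : Fin (J + 1) => ((X Q i : ℝ) : ℂ) ^ (k : ℕ) * (((a Q i : ℝ) / (b Q i : ℝ) : ℝ) : ℂ)) j with hΦdef
  have hq : Tendsto (fun Q : ℕ => (Q : ℝ)) l atTop := tendsto_natCast_atTop_atTop.mono_left hlt
  have hqev : ∀ᶠ Q : ℕ in l, 1 ≤ Q := (eventually_ge_atTop 1).filter_mono hlt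
  have hpt : ∀ Q : ℕ, 1 ≤ Q → ∀ i, (x : ℂ) + (((T i : ℕ) : ℂ) - τ Q) / ((Q : ℝ) : ℂ) = ((X Q i : ℝ) : ℂ) := by
    intro Q hQ i
    have hQ0 : (Q : ℝ) ≠ 0 := by positivity
    have h1 : x + (((T i : ℕ) : ℝ) - Int.fract ((Q : ℝ) * x)) / (Q : ℝ) = X Q i := by
      simp only [hX, Int.fract]
      field_simp
      ring
    rw [← h1, hτ]
    push_cast
    ring
  have hXb : ∀ Q : ℕ, 1 ≤ Q → ∀ i, |X Q i| ≤ |x| + (T i : ℝ) + 1 := by
    intro Q hQ i
    have hQ0 : (0 : ℝ) < Q := by positivity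
    have hQ1 : (1 : ℝ) ≤ Q := by exact_mod_cast hQ
    have h1 : X Q i = x + (((T i : ℕ) : ℝ) - Int.fract ((Q : ℝ) * x)) / (Q : ℝ) := by
      simp only [hX, Int.fract]
      field_simp
      ring
    rw [h1]
    have hfr0 := Int.fract_nonneg ((Q : ℝ) * x)
    have hfr1 := (Int.fract_lt_one ((Q : ℝ) * x)).le
    have hT0 : (0 : ℝ) ≤ (T i : ℝ) := Nat.cast_nonneg _
    have h2 : |(((T i : ℕ) : ℝ) - Int.fract ((Q : ℝ) * x)) / (Q : ℝ)| ≤ (T i : ℝ) + 1 := by
      rw [abs_div, abs_of_pos hQ0]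
      calc |((T i : ℕ) : ℝ) - Int.fract ((Q : ℝ) * x)| / (Q : ℝ)
          ≤ |((T i : ℕ) : ℝ) - Int.fract ((Q : ℝ) * x)| := div_le_self (abs_nonneg _) hQ1
        _ ≤ (T i : ℝ) + 1 := by
            rw [abs_le]
            constructor <;> linarith
    calc |x + (((T i : ℕ) : ℝ) - Int.fract ((Q : ℝ) * x)) / (Q : ℝ)|
        ≤ |x| + |(((T i : ℕ) : ℝ) - Int.fract ((Q : ℝ) * x)) / (Q : ℝ)| := abs_add_le _ _
      _ ≤ _ := by linarith
  have hasymp := det_asymp (l := l) (phi f J) (x : ℂ)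
    (fun j => (phi_differentiable hf J j).analyticAt _) (fun i => ((T i : ℕ) : ℂ))
    (fun i j hij => hT (by simpa using hij)) (fun Q : ℕ => (Q : ℝ)) hq τ 1
    (fun Q => by
      rw [hτ, Complex.norm_real, Real.norm_of_nonneg (Int.fract_nonneg _)]
      exact (Int.fract_lt_one _).le) Φ
    (by
      intro i j
      have hb : ∀ᶠ Q : ℕ in l, ‖(((Q : ℝ) : ℂ)) ^ ((J + 1) + (J + 1) - 1) *
          (Φ Q i j - phi f J j ((x : ℂ) + (((T i : ℕ) : ℂ) - τ Q) / ((Q : ℝ) : ℂ)))‖
          ≤ (|x| + (T i : ℝ) + 1) ^ J * ((Q : ℝ))⁻¹ := by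
        filter_upwards [hqev, hSl] with Q hQ hQS
        rw [hpt Q hQ i]
        have hQ0 : (0 : ℝ) < Q := by positivity
        have hQ1 : (1 : ℝ) ≤ Q := by exact_mod_cast hQ
        have hbase : 1 ≤ |x| + (T i : ℝ) + 1 := by
          have := abs_nonneg x
          have : (0 : ℝ) ≤ (T i : ℝ) := Nat.cast_nonneg _
          linarith
        refine Fin.addCases (fun k => ?_) (fun k => ?_) j
        · simp only [hΦdef, phi, Matrix.of_apply, Fin.append_left, sub_self, mul_zero, norm_zero]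
          positivity
        · simp only [hΦdef, phi, Matrix.of_apply, Fin.append_right]
          rw [hg, ← mul_sub, ← Complex.ofReal_sub, norm_mul, norm_mul, norm_pow, norm_pow,
            Complex.norm_real, Complex.norm_real, Complex.norm_real, Real.norm_eq_abs, Real.norm_eq_abs,
            Real.norm_eq_abs, abs_of_pos hQ0]
          obtain ⟨hb1, hb2, hb3, hb4⟩ := hab Q i hQS
          have hbpos : (0 : ℝ) < (b Q i : ℝ) := by exact_mod_cast hb1
          have h1 : |(a Q i : ℝ) / (b Q i : ℝ) - g (X Q i)| ≤ 1 / (Q : ℝ) ^ (2 * J + 2) := by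
            rw [abs_sub_comm]
            refine hb4.le.trans ?_
            refine one_div_le_one_div_of_le (by positivity) ?_
            have h2 : (Q : ℝ) ^ (J + 1) ≤ (b Q i : ℝ) ^ 8 := by exact_mod_cast hb2
            calc (Q : ℝ) ^ (2 * J + 2) = ((Q : ℝ) ^ (J + 1)) ^ 2 := by ring
              _ ≤ ((b Q i : ℝ) ^ 8) ^ 2 := pow_le_pow_left₀ (by positivity) h2 2
              _ = (b Q i : ℝ) ^ 16 := by ring
          have h2 : |X Q i| ^ (k : ℕ) ≤ (|x| + (T i : ℝ) + 1) ^ J := by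
            calc |X Q i| ^ (k : ℕ) ≤ (|x| + (T i : ℝ) + 1) ^ (k : ℕ) :=
                  pow_le_pow_left₀ (abs_nonneg _) (hXb Q hQ i) _
              _ ≤ _ := pow_le_pow_right₀ hbase (by omega)
          calc (Q : ℝ) ^ ((J + 1) + (J + 1) - 1) * (|X Q i| ^ (k : ℕ) * |(a Q i : ℝ) / (b Q i : ℝ) - g (X Q i)|)
              ≤ (Q : ℝ) ^ ((J + 1) + (J + 1) - 1) * ((|x| + (T i : ℝ) + 1) ^ J * (1 / (Q : ℝ) ^ (2 * J + 2))) := by
                refine mul_le_mul_of_nonneg_left ?_ (by positivity)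
                exact mul_le_mul h2 h1 (abs_nonneg _) (by positivity)
            _ = (|x| + (T i : ℝ) + 1) ^ J * ((Q : ℝ))⁻¹ := by
                have : (J + 1) + (J + 1) - 1 = 2 * J + 1 := by omega
                rw [this]
                have h3 : (Q : ℝ) ^ (2 * J + 2) = (Q : ℝ) ^ (2 * J + 1) * (Q : ℝ) := by ring
                rw [h3]
                field_simp
      rw [tendsto_zero_iff_norm_tendsto_zero]
      refine squeeze_zero' (Eventually.of_forall fun _ => norm_nonneg _) hb ?_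
      have := (tendsto_inv_atTop_zero.comp hq).const_mul ((|x| + (T i : ℝ) + 1) ^ J)
      simpa using this)
  set w : ℂ := (Matrix.vandermonde (fun i => ((T i : ℕ) : ℂ))).det *
        (Matrix.of fun i j : Fin ((J + 1) + (J + 1)) =>
          iteratedDeriv (i : ℕ) (phi f J j) (x : ℂ) / (((i : ℕ).factorial : ℕ) : ℂ)).det with hw
  have hw0 : w ≠ 0 := by
    rw [hw]
    refine mul_ne_zero ?_ ?_
    · rw [Matrix.det_vandermonde_ne_zero_iff]
      intro i j hij
      exact hT (by simpa using hij)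
    · have : (Matrix.of fun i j : Fin ((J + 1) + (J + 1)) =>
          iteratedDeriv (i : ℕ) (phi f J j) (x : ℂ) / (((i : ℕ).factorial : ℕ) : ℂ))
          = Matrix.of fun i j : Fin ((J + 1) + (J + 1)) => (((((i : ℕ).factorial : ℕ) : ℂ))⁻¹) *
            (Matrix.of fun i j : Fin ((J + 1) + (J + 1)) => iteratedDeriv (i : ℕ) (phi f J j) (x : ℂ)) i j := by
        ext i j
        simp only [Matrix.of_apply]
        ring
      rw [this, Matrix.det_mul_column]
      refine mul_ne_zero ?_ hW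
      refine Finset.prod_ne_zero_iff.mpr fun i _ => inv_ne_zero ?_
      exact_mod_cast Nat.factorial_ne_zero _
  -- the integer matrix
  set Ψ : ℕ → Matrix (Fin ((J + 1) + (J + 1))) (Fin ((J + 1) + (J + 1))) ℤ := fun Q =>
    Matrix.of fun i j => Fin.append (fun k : Fin (J + 1) => (⌊(Q : ℝ) * x⌋ + (T i : ℤ)) ^ (k : ℕ) * (b Q i : ℤ))
      (fun k : Fin (J + 1) => (⌊(Q : ℝ) * x⌋ + (T i : ℤ)) ^ (k : ℕ) * a Q i) j with hΨ
  set e : Fin ((J + 1) + (J + 1)) → ℕ := Fin.append (fun k : Fin (J + 1) => (k : ℕ)) (fun k : Fin (J + 1) => (k : ℕ)) with he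
  have hsum : ∑ i : Fin ((J + 1) + (J + 1)), (i : ℕ) = ∑ j, e j + (J + 1) ^ 2 := by
    have h1 : ∑ i : Fin ((J + 1) + (J + 1)), (i : ℕ)
        = ∑ k : Fin (J + 1), (k : ℕ) + ∑ k : Fin (J + 1), ((J + 1) + (k : ℕ)) := by
      rw [Fin.sum_univ_add]
      simp only [Fin.val_castAdd, Fin.val_natAdd]
    have h2 : ∑ j, e j = ∑ k : Fin (J + 1), (k : ℕ) + ∑ k : Fin (J + 1), (k : ℕ) := by
      rw [Fin.sum_univ_add]
      simp only [he, Fin.append_left, Fin.append_right]
    rw [h1, h2, Finset.sum_add_distrib]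
    simp only [Finset.sum_const, Finset.card_univ, Fintype.card_fin, smul_eq_mul]
    ring
  have hdetΨ : ∀ Q : ℕ, 1 ≤ Q → Q ∈ S → (((Ψ Q).det : ℤ) : ℂ) * ((Q : ℝ) : ℂ) ^ ((J + 1) ^ 2)
      = (∏ i, ((b Q i : ℕ) : ℂ)) * (((Q : ℝ) : ℂ) ^ (∑ i : Fin ((J + 1) + (J + 1)), (i : ℕ)) * (Φ Q).det) := by
    intro Q hQ hQS
    have hQ0 : ((Q : ℝ) : ℂ) ≠ 0 := by
      have : (Q : ℝ) ≠ 0 := by positivity
      exact_mod_cast this
    have h1 : (((Ψ Q).det : ℤ) : ℂ) = (Matrix.of fun i j => ((b Q i : ℕ) : ℂ) *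
        (Matrix.of fun i j => ((Q : ℝ) : ℂ) ^ (e j) * Φ Q i j) i j).det := by
      have hcast : (((Ψ Q).det : ℤ) : ℂ) = ((Ψ Q).map (Int.cast : ℤ → ℂ)).det := by
        have := RingHom.map_det (Int.castRingHom ℂ) (Ψ Q)
        simpa [RingHom.mapMatrix_apply] using this
      rw [hcast]
      congr 1
      ext i j
      have hbpos : ((b Q i : ℕ) : ℂ) ≠ 0 := by
        have := (hab Q i hQS).1
        have h3 : b Q i ≠ 0 := by omega
        exact_mod_cast h3
      refine Fin.addCases (fun k => ?_) (fun k => ?_) j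
      · simp only [hΨ, hΦdef, he, hX, Matrix.map_apply, Matrix.of_apply, Fin.append_left]
        push_cast
        rw [div_pow]
        have hQ0' : ((Q : ℂ)) ^ (k : ℕ) ≠ 0 := pow_ne_zero _ (by exact_mod_cast hQ0)
        field_simp
      · simp only [hΨ, hΦdef, he, hX, Matrix.map_apply, Matrix.of_apply, Fin.append_right]
        push_cast
        rw [div_pow]
        have hQ0' : ((Q : ℂ)) ^ (k : ℕ) ≠ 0 := pow_ne_zero _ (by exact_mod_cast hQ0)
        field_simp
    rw [h1, Matrix.det_mul_column, Matrix.det_mul_row, Finset.prod_pow_eq_pow_sum, hsum, pow_add]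
    ring
  have hev1 : ∀ᶠ Q : ℕ in l, ‖((Q : ℝ) : ℂ) ^ (∑ i : Fin ((J + 1) + (J + 1)), (i : ℕ)) * (Φ Q).det‖ < ‖w‖ + 1 :=
    hasymp.norm.eventually_lt_const (by linarith)
  have hev2 : ∀ᶠ Q : ℕ in l, ((Q : ℝ) : ℂ) ^ (∑ i : Fin ((J + 1) + (J + 1)), (i : ℕ)) * (Φ Q).det ≠ 0 :=
    hasymp.eventually_ne hw0
  have hev3 : ∀ᶠ Q : ℕ in l, (‖w‖ + 1) ^ 4 < (Q : ℝ) := hq.eventually_gt_atTop _
  obtain ⟨Q, ⟨⟨⟨hQ1, hQS⟩, hQ2⟩, hQ3⟩, hQ4⟩ := (((hqev.and hSl).and hev1).and hev2).and hev3 |>.exists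
  have hQ0 : (0 : ℝ) < Q := by positivity
  have hD := hdetΨ Q hQ1 hQS
  have hbprod : (∏ i, ((b Q i : ℕ) : ℂ)) ≠ 0 := by
    refine Finset.prod_ne_zero_iff.mpr fun i _ => ?_
    have := (hab Q i hQS).1
    have h3 : b Q i ≠ 0 := by omega
    exact_mod_cast h3
  have hDne : (Ψ Q).det ≠ 0 := by
    intro h0
    rw [h0] at hD
    simp only [Int.cast_zero, zero_mul] at hD
    exact (mul_ne_zero hbprod hQ3) hD.symm
  have hDabs : (1 : ℝ) ≤ |((Ψ Q).det : ℝ)| := by
    exact_mod_cast Int.one_le_abs hDne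
  have hnorm : |((Ψ Q).det : ℝ)| * (Q : ℝ) ^ ((J + 1) ^ 2)
      = (∏ i, ((b Q i : ℕ) : ℝ)) * ‖((Q : ℝ) : ℂ) ^ (∑ i : Fin ((J + 1) + (J + 1)), (i : ℕ)) * (Φ Q).det‖ := by
    have := congrArg norm hD
    rw [norm_mul, norm_mul _ (_ * _), norm_pow, Complex.norm_real, Real.norm_of_nonneg hQ0.le] at this
    rw [Complex.norm_prod] at this
    simp only [Complex.norm_natCast, Complex.norm_intCast] at this
    exact this
  have hprod4 : (∏ i, ((b Q i : ℕ) : ℝ)) ^ 4 ≤ (Q : ℝ) ^ ((2 * J + 1) * (2 * J + 2)) := by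
    rw [← Finset.prod_pow]
    calc ∏ i, ((b Q i : ℕ) : ℝ) ^ 4 ≤ ∏ i : Fin ((J + 1) + (J + 1)), (Q : ℝ) ^ (2 * J + 1) := by
          refine Finset.prod_le_prod (fun i _ => by positivity) fun i _ => ?_
          exact_mod_cast (hab Q i hQS).2.2.1
      _ = (Q : ℝ) ^ ((2 * J + 1) * (2 * J + 2)) := by
          rw [Finset.prod_const, Finset.card_univ, Fintype.card_fin, ← pow_mul]
          congr 1
          ring
  have hB0 : 0 ≤ (∏ i, ((b Q i : ℕ) : ℝ)) := Finset.prod_nonneg fun i _ => Nat.cast_nonneg _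
  have hfin : (Q : ℝ) ^ ((J + 1) ^ 2) ≤ (∏ i, ((b Q i : ℕ) : ℝ)) * (‖w‖ + 1) := by
    calc (Q : ℝ) ^ ((J + 1) ^ 2) ≤ |((Ψ Q).det : ℝ)| * (Q : ℝ) ^ ((J + 1) ^ 2) :=
          le_mul_of_one_le_left (by positivity) hDabs
      _ = _ := hnorm
      _ ≤ _ := mul_le_mul_of_nonneg_left hQ2.le hB0
  have hfin4 : ((Q : ℝ) ^ ((J + 1) ^ 2)) ^ 4 ≤ (Q : ℝ) ^ ((2 * J + 1) * (2 * J + 2)) * (‖w‖ + 1) ^ 4 := by
    calc ((Q : ℝ) ^ ((J + 1) ^ 2)) ^ 4 ≤ ((∏ i, ((b Q i : ℕ) : ℝ)) * (‖w‖ + 1)) ^ 4 :=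
          pow_le_pow_left₀ (by positivity) hfin 4
      _ = (∏ i, ((b Q i : ℕ) : ℝ)) ^ 4 * (‖w‖ + 1) ^ 4 := by ring
      _ ≤ _ := mul_le_mul_of_nonneg_right hprod4 (by positivity)
  have hexp : ((Q : ℝ) ^ ((J + 1) ^ 2)) ^ 4 = (Q : ℝ) ^ ((2 * J + 1) * (2 * J + 2)) * (Q : ℝ) ^ (2 * J + 2) := by
    rw [← pow_mul, ← pow_add]
    congr 1
    ring
  rw [hexp] at hfin4
  have hfin5 : (Q : ℝ) ^ (2 * J + 2) ≤ (‖w‖ + 1) ^ 4 :=
    le_of_mul_le_mul_left hfin4 (by positivity)
  have hQ1' : (1 : ℝ) ≤ Q := by exact_mod_cast hQ1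
  have hfin6 : (Q : ℝ) ≤ (Q : ℝ) ^ (2 * J + 2) := le_self_pow₀ hQ1' (by omega)
  linarith

end Pool.Agent.Lib.MP_cde753_nt
end

section

set_option autoImplicit false

open Filter Topology

namespace Pool.Agent.Lib.MP_cde753_nt

theorem wr_zero_eq (f : ℂ → ℂ) (z : ℂ) : wr f 0 z = deriv f z := by
  have h0 : phi f 0 0 = fun _ => (1 : ℂ) := by
    funext w
    have : (0 : Fin ((0 + 1) + (0 + 1))) = Fin.castAdd (0 + 1) (0 : Fin (0 + 1)) := rfl
    rw [this]
    simp only [phi, Fin.append_left]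
    simp
  have h1 : phi f 0 1 = f := by
    funext w
    have : (1 : Fin ((0 + 1) + (0 + 1))) = Fin.natAdd (0 + 1) (0 : Fin (0 + 1)) := rfl
    rw [this]
    simp only [phi, Fin.append_right]
    simp
  have h2 : wr f 0 z = (Matrix.of fun i j : Fin 2 => iteratedDeriv (i : ℕ) (phi f 0 j) z).det := rfl
  rw [h2, Matrix.det_fin_two]
  simp only [Matrix.of_apply]
  have h0' : phi f 0 (0 : Fin 2) = fun _ => (1 : ℂ) := h0
  have h1' : phi f 0 (1 : Fin 2) = f := h1
  rw [h0', h1']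
  simp

/-- Good rational points near a point with non-vanishing Wronskians. -/
theorem good_points {f : ℂ → ℂ} (hf : Differentiable ℂ f) {g : ℝ → ℝ} (hg : ∀ x : ℝ, f (x : ℂ) = (g x : ℂ))
    {x : ℝ} (hW : ∀ J, wr f J (x : ℂ) ≠ 0) (h : ℕ) :
    ∃ C : ℕ, ∀ᶠ Q : ℕ in atTop, ∃ t : ℕ, t < C ∧ ∀ (a : ℤ) (b : ℕ), 1 ≤ b → Q ≤ b ^ 8 → b < Q ^ h →
      1 / (b : ℝ) ^ 16 ≤ |g (((⌊(Q : ℝ) * x⌋ : ℝ) + (t : ℝ)) / (Q : ℝ)) - (a : ℝ) / (b : ℝ)| := by
  set M : ℕ := 8 * h with hM
  set C : ℕ := M * (2 * M) + 1 with hC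
  refine ⟨C, ?_⟩
  have h1 : ∀ᶠ Q : ℕ in atTop, ∀ J : Fin M, ∀ T : Fin (((J : ℕ) + 1) + ((J : ℕ) + 1)) → Fin C,
      Function.Injective T → ¬ ∀ i, Bad g x J Q (T i) := by
    rw [Filter.eventually_all]
    intro J
    rw [Filter.eventually_all]
    intro T
    by_cases hT : Function.Injective T
    · have := few_bad hf hg (hW J) (fun i => ((T i : Fin C) : ℕ)) (fun i j hij => hT (Fin.ext hij))
      filter_upwards [this] with Q hQ _
      exact hQ
    · exact Eventually.of_forall fun Q hT' => absurd hT' hT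
  filter_upwards [h1, eventually_ge_atTop 2] with Q hQ hQ2
  -- find t good for all classes
  obtain ⟨t, ht⟩ : ∃ t : Fin C, ∀ J : Fin M, ¬ Bad g x J Q t := by
    by_contra hcon
    push Not at hcon
    choose J hJ using hcon
    obtain ⟨J₀, hJ₀⟩ := Fintype.exists_lt_card_fiber_of_mul_lt_card J (n := 2 * M) (by simp [hC])
    have hcard : Fintype.card (Fin (((J₀ : ℕ) + 1) + ((J₀ : ℕ) + 1))) ≤ Fintype.card {t : Fin C // J t = J₀} := by
      rw [Fintype.card_fin, Fintype.card_subtype]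
      have := J₀.isLt
      omega
    obtain ⟨e⟩ := Function.Embedding.nonempty_of_card_le hcard
    refine hQ J₀ (fun i => (e i : {t : Fin C // J t = J₀}).1) ?_ ?_
    · intro i j hij
      exact e.injective (Subtype.ext hij)
    · intro i
      have h3 := (e i).2
      have h4 := hJ (e i).1
      rw [h3] at h4
      exact h4
  refine ⟨t, t.isLt, ?_⟩
  intro a b hb hQb hbQ
  by_contra hlt
  push Not at hlt
  have hb8 : b ^ 8 ≠ 0 := by positivity
  have hb8' : b ^ 8 < Q ^ M := by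
    calc b ^ 8 < (Q ^ h) ^ 8 := Nat.pow_lt_pow_left hbQ (by norm_num)
      _ = Q ^ M := by rw [← pow_mul, hM]; ring_nf
  set L := Nat.log Q (b ^ 8) with hL
  have hL1 : 1 ≤ L := by
    rw [hL]
    exact Nat.log_pos hQ2 hQb
  have hle : Q ^ L ≤ b ^ 8 := Nat.pow_log_le_self Q hb8
  have hltL : b ^ 8 < Q ^ (L + 1) := Nat.lt_pow_succ_log_self (by omega) _
  have hLM : L < M := by
    by_contra hML
    push Not at hML
    have : Q ^ M ≤ Q ^ L := Nat.pow_le_pow_right (by omega) hML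
    omega
  obtain ⟨J, hJ⟩ : ∃ J, L = J + 1 := ⟨L - 1, by omega⟩
  have hJM : J < M := by omega
  apply ht ⟨J, hJM⟩
  refine ⟨a, b, hb, ?_, ?_, hlt⟩
  · simpa [← hJ] using hle
  · have h5 : (b ^ 4) ^ 2 ≤ (Q ^ (2 * J + 1)) ^ 2 := by
      calc (b ^ 4) ^ 2 = b ^ 8 := by ring
        _ ≤ Q ^ (L + 1) := hltL.le
        _ ≤ Q ^ (2 * (2 * J + 1)) := Nat.pow_le_pow_right (by omega) (by omega)
        _ = (Q ^ (2 * J + 1)) ^ 2 := by rw [← pow_mul]; ring_nf
    exact (Nat.pow_le_pow_iff_left (by norm_num)).mp h5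

/-- A local inverse on the real line. -/
theorem local_inv {f : ℂ → ℂ} (hf : Differentiable ℂ f) {g : ℝ → ℝ} (hg : ∀ x : ℝ, f (x : ℂ) = (g x : ℂ))
    {x : ℝ} (hW : wr f 0 (x : ℂ) ≠ 0) :
    ∃ (θ : ℝ → ℝ) (K L r : ℝ), 0 < K ∧ 0 < L ∧ 0 < r ∧ (∀ y, |y - g x| < r → g (θ y) = y) ∧
      (∀ y y', |y - g x| < r → |y' - g x| < r → |θ y - θ y'| ≤ K * |y - y'|) ∧
      (∀ x', |x' - x| < r → θ (g x') = x') ∧ (∀ x', |x' - x| < r → |g x' - g x| ≤ L * |x' - x|) := by
  have hgre : g = fun x : ℝ => (f (x : ℂ)).re := by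
    funext t
    rw [hg t, Complex.ofReal_re]
  have hstrict : HasStrictDerivAt f (deriv f (x : ℂ)) (x : ℂ) := by
    have h1 : ContDiff ℂ 1 f := hf.contDiff
    exact h1.contDiffAt.hasStrictDerivAt (by norm_num)
  have hgs : HasStrictDerivAt g (deriv f (x : ℂ)).re x := by
    rw [hgre]
    exact hstrict.real_of_complex
  have hne : (deriv f (x : ℂ)).re ≠ 0 := by
    intro h0
    rw [wr_zero_eq] at hW
    apply hW
    have h1 : HasDerivAt (fun t : ℝ => f (t : ℂ)) (deriv f (x : ℂ)) x := hstrict.hasDerivAt.comp_ofReal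
    have h2 : HasDerivAt (fun t : ℝ => ((g t : ℝ) : ℂ)) (((deriv f (x : ℂ)).re : ℝ) : ℂ) x := hgs.hasDerivAt.ofReal_comp
    have h3 : (fun t : ℝ => f (t : ℂ)) = (fun t : ℝ => ((g t : ℝ) : ℂ)) := by
      funext t
      exact hg t
    rw [h3] at h1
    have := h1.unique h2
    rw [this, h0]
    simp
  set θ := hgs.localInverse g _ x hne with hθ
  have hθs : HasStrictDerivAt θ ((deriv f (x : ℂ)).re)⁻¹ (g x) := hgs.to_localInverse hne
  have hright : ∀ᶠ y in 𝓝 (g x), g (θ y) = y :=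
    (hgs.hasStrictFDerivAt_equiv hne).eventually_right_inverse
  have hleft : ∀ᶠ x' in 𝓝 x, θ (g x') = x' :=
    (hgs.hasStrictFDerivAt_equiv hne).eventually_left_inverse
  obtain ⟨K, s, hs, hK⟩ := hθs.hasStrictFDerivAt.exists_lipschitzOnWith
  obtain ⟨L, s', hs', hL⟩ := hgs.hasStrictFDerivAt.exists_lipschitzOnWith
  obtain ⟨r₁, hr₁, h₁⟩ := Metric.eventually_nhds_iff.mp hright
  obtain ⟨r₂, hr₂, h₂⟩ := Metric.eventually_nhds_iff.mp hleft
  obtain ⟨r₃, hr₃, h₃⟩ := Metric.mem_nhds_iff.mp hs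
  obtain ⟨r₄, hr₄, h₄⟩ := Metric.mem_nhds_iff.mp hs'
  refine ⟨θ, (K : ℝ) + 1, (L : ℝ) + 1, min (min r₁ r₂) (min r₃ r₄), by positivity, by positivity,
    by positivity, ?_, ?_, ?_, ?_⟩
  · intro y hy
    apply h₁
    rw [Real.dist_eq]
    exact lt_of_lt_of_le hy ((min_le_left _ _).trans (min_le_left _ _))
  · intro y y' hy hy'
    have hyr : y ∈ s := h₃ (by
      rw [Metric.mem_ball, Real.dist_eq]
      exact lt_of_lt_of_le hy ((min_le_right _ _).trans (min_le_left _ _)))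
    have hyr' : y' ∈ s := h₃ (by
      rw [Metric.mem_ball, Real.dist_eq]
      exact lt_of_lt_of_le hy' ((min_le_right _ _).trans (min_le_left _ _)))
    have := hK.dist_le_mul y hyr y' hyr'
    rw [Real.dist_eq, Real.dist_eq] at this
    have h5 := abs_nonneg (y - y')
    linarith
  · intro x' hx'
    apply h₂
    rw [Real.dist_eq]
    exact lt_of_lt_of_le hx' ((min_le_left _ _).trans (min_le_right _ _))
  · intro x' hx'
    have hxr : x' ∈ s' := h₄ (by
      rw [Metric.mem_ball, Real.dist_eq]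
      exact lt_of_lt_of_le hx' ((min_le_right _ _).trans (min_le_right _ _)))
    have hxr' : x ∈ s' := h₄ (Metric.mem_ball_self hr₄)
    have := hL.dist_le_mul x' hxr x hxr'
    rw [Real.dist_eq, Real.dist_eq] at this
    have h5 := abs_nonneg (x' - x)
    linarith

/-- Generic points. -/
structure Gen (f : ℂ → ℂ) (g : ℝ → ℝ) (κ : ℝ) (x : ℝ) : Prop where
  G1 : ∀ J, wr f J (x : ℂ) ≠ 0
  G2 : ∃ c : ℝ, 0 < c ∧ ∀ (a : ℤ) (b : ℕ), 1 ≤ b → c / (b : ℝ) ^ 3 ≤ |g x - (a : ℝ) / (b : ℝ)|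
  G3 : ∀ b : ℕ, 1 ≤ b → ∃ μ : ℝ, κ / (b : ℝ) ^ 20 < μ ∧ ∀ a : ℤ, μ ≤ |g x - (a : ℝ) / (b : ℝ)|

theorem bad_set_countable {f : ℂ → ℂ} (hf : Differentiable ℂ f)
    (hnp : ¬ ∃ p : Polynomial ℂ, ∀ z : ℂ, f z = p.eval z) : {x : ℝ | ∃ J, wr f J (x : ℂ) = 0}.Countable := by
  have : {x : ℝ | ∃ J, wr f J (x : ℂ) = 0} = ⋃ J, {x : ℝ | wr f J (x : ℂ) = 0} := by
    ext x
    simp
  rw [this]
  refine Set.countable_iUnion fun J => ?_
  exact (wr_zeros_countable hf hnp J).preimage_of_injOn Complex.ofReal_injective.injOn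

/-- Generic points exist. -/
theorem exists_gen {f : ℂ → ℂ} (hf : Differentiable ℂ f) {g : ℝ → ℝ} (hg : ∀ x : ℝ, f (x : ℂ) = (g x : ℂ))
    (hnp : ¬ ∃ p : Polynomial ℂ, ∀ z : ℂ, f z = p.eval z) :
    ∃ κ : ℝ, 0 < κ ∧ κ < 1 / 2 ∧ ∃ x, Gen f g κ x := by
  obtain ⟨c₀, hc₀, happ⟩ := exists_approx
  have hbc := bad_set_countable hf hnp
  obtain ⟨x₁, hx₁⟩ : ∃ x₁ : ℝ, x₁ ∉ {x : ℝ | ∃ J, wr f J (x : ℂ) = 0} := by
    by_contra h
    push Not at h
    have : (Set.univ : Set ℝ).Countable := hbc.mono (fun x _ => h x)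
    exact Set.not_countable_univ this
  have hW : wr f 0 (x₁ : ℂ) ≠ 0 := fun h => hx₁ ⟨0, h⟩
  obtain ⟨θ, K, L, r, hK, hL, hr, h1, h2, h3, h4⟩ := local_inv hf hg hW
  obtain ⟨N, hN⟩ := exists_nat_one_div_lt hr
  obtain ⟨y', hy1, hy2, hy3⟩ := happ (N + 1) (by omega) (g x₁) (g '' {x : ℝ | ∃ J, wr f J (x : ℂ) = 0}) (hbc.image g)
  have hy1' : |y' - g x₁| < r := by
    refine lt_of_le_of_lt hy1 ?_
    push_cast
    exact hN
  have hgy := h1 y' hy1'
  have hN0 : (0 : ℝ) < (N : ℝ) + 1 := by positivity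
  refine ⟨min (c₀ / (2 * ((N : ℝ) + 1))) (1 / 4), by positivity, by
    refine lt_of_le_of_lt (min_le_right _ _) (by norm_num), θ y', ?_, ?_, ?_⟩
  · intro J hJ
    apply hy2
    exact ⟨θ y', ⟨J, hJ⟩, hgy⟩
  · refine ⟨c₀ / ((N : ℝ) + 1), by positivity, ?_⟩
    intro a b hb
    rw [hgy]
    have := hy3 a b hb
    push_cast at this
    rwa [div_div]
  · intro b hb
    have hbpos : (0 : ℝ) < b := by exact_mod_cast hb
    have hb1 : (1 : ℝ) ≤ b := by exact_mod_cast hb
    refine ⟨c₀ / (((N : ℝ) + 1) * (b : ℝ) ^ 3), ?_, ?_⟩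
    · calc min (c₀ / (2 * ((N : ℝ) + 1))) (1 / 4) / (b : ℝ) ^ 20
          ≤ (c₀ / (2 * ((N : ℝ) + 1))) / (b : ℝ) ^ 20 :=
            div_le_div_of_nonneg_right (min_le_left _ _) (by positivity)
        _ ≤ (c₀ / (2 * ((N : ℝ) + 1))) / (b : ℝ) ^ 3 := by
            refine div_le_div_of_nonneg_left (by positivity) (by positivity) ?_
            exact pow_le_pow_right₀ hb1 (by norm_num)
        _ < c₀ / (((N : ℝ) + 1) * (b : ℝ) ^ 3) := by
            rw [div_div]
            refine div_lt_div_of_pos_left hc₀ (by positivity) ?_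
            have : (0 : ℝ) < ((N : ℝ) + 1) * (b : ℝ) ^ 3 := by positivity
            nlinarith
    · intro a
      rw [hgy]
      have := hy3 a b hb
      push_cast at this
      exact this

end Pool.Agent.Lib.MP_cde753_nt
end

section

set_option autoImplicit false

open Filter Topology

namespace Pool.Agent.Lib.MP_cde753_nt

theorem gen_step {f : ℂ → ℂ} (hf : Differentiable ℂ f) {g : ℝ → ℝ} (hg : ∀ x : ℝ, f (x : ℂ) = (g x : ℂ))
    (hnp : ¬ ∃ p : Polynomial ℂ, ∀ z : ℂ, f z = p.eval z) {κ : ℝ} (hκ0 : 0 < κ) (hκ : κ < 1 / 2)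
    {x : ℝ} (hx : Gen f g κ x) (n : ℕ) {ε : ℝ} (hε : 0 < ε) :
    ∃ (p : ℤ) (q : ℕ), 2 ≤ q ∧ ∃ x' : ℝ, Gen f g κ x' ∧ |x' - x| < ε ∧ x' ≠ (p : ℝ) / (q : ℝ) ∧
      |x' - (p : ℝ) / (q : ℝ)| < 1 / (q : ℝ) ^ n := by
  obtain ⟨c₀, hc₀, happ⟩ := exists_approx
  have hbc := bad_set_countable hf hnp
  obtain ⟨θ, K, L, r, hK, hL, hr, h1, h2, h3, h4⟩ := local_inv hf hg (hx.G1 0)
  obtain ⟨C, hgood⟩ := good_points hf hg hx.G1 (n + 1)
  obtain ⟨c, hc, hG2⟩ := hx.G2
  -- constant L'
  set L' : ℝ := L * ((C : ℝ) + 1) + 1 with hL'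
  have hL'pos : 0 < L' := by positivity
  -- B₀
  obtain ⟨B₀, hB₀⟩ : ∃ B₀ : ℕ, (L' + κ + 1) / c < (B₀ : ℝ) := exists_nat_gt _
  -- for b < B₀
  have hsmall : ∀ᶠ Q : ℕ in atTop, ∀ b ∈ Finset.range B₀, 1 ≤ b →
      ∃ μ : ℝ, κ / (b : ℝ) ^ 20 < μ ∧ ∀ a : ℤ, ∀ y' : ℝ, |y' - g x| ≤ L' / (Q : ℝ) → μ ≤ |y' - (a : ℝ) / (b : ℝ)| := by
    rw [Filter.eventually_all_finset]
    intro b _
    by_cases hb : 1 ≤ b
    · obtain ⟨μ, hμ1, hμ2⟩ := hx.G3 b hb
      have hlim : Tendsto (fun Q : ℕ => L' / (Q : ℝ)) atTop (𝓝 0) := tendsto_const_div_atTop_nhds_zero_nat L'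
      have hev := hlim.eventually_lt_const (show 0 < (μ - κ / (b : ℝ) ^ 20) / 2 by linarith)
      filter_upwards [hev] with Q hQ _
      refine ⟨μ - (μ - κ / (b : ℝ) ^ 20) / 2, by linarith, ?_⟩
      intro a y' hy'
      have h5 := hμ2 a
      have h6 : |g x - (a : ℝ) / b| ≤ |y' - (a : ℝ) / b| + |y' - g x| := by
        have : g x - (a : ℝ) / b = (y' - (a : ℝ) / b) - (y' - g x) := by ring
        rw [this]
        exact abs_sub _ _
      linarith
    · exact Eventually.of_forall fun Q h => absurd h hb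
  have hcast : Tendsto (fun Q : ℕ => (Q : ℝ)) atTop atTop := tendsto_natCast_atTop_atTop
  have e1 : ∀ᶠ Q : ℕ in atTop, L' / (Q : ℝ) < r := by
    have hlim : Tendsto (fun Q : ℕ => L' / (Q : ℝ)) atTop (𝓝 0) := tendsto_const_div_atTop_nhds_zero_nat L'
    exact hlim.eventually_lt_const hr
  have e2 : ∀ᶠ Q : ℕ in atTop, ((C : ℝ) + 1) / (Q : ℝ) < r := by
    have hlim : Tendsto (fun Q : ℕ => ((C : ℝ) + 1) / (Q : ℝ)) atTop (𝓝 0) :=
      tendsto_const_div_atTop_nhds_zero_nat _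
    exact hlim.eventually_lt_const hr
  have e3 : ∀ᶠ Q : ℕ in atTop, K * L' / (Q : ℝ) < ε := by
    have hlim : Tendsto (fun Q : ℕ => K * L' / (Q : ℝ)) atTop (𝓝 0) :=
      tendsto_const_div_atTop_nhds_zero_nat _
    exact hlim.eventually_lt_const hε
  have e4 : ∀ᶠ Q : ℕ in atTop, K < (Q : ℝ) := hcast.eventually_gt_atTop _
  have e5 : ∀ᶠ Q : ℕ in atTop, 2 * κ / c₀ < (Q : ℝ) := hcast.eventually_gt_atTop _
  obtain ⟨Q, ⟨⟨⟨⟨⟨⟨⟨hQ1, hQ2⟩, hQ3⟩, hQ4⟩, hQ5⟩, hQ6⟩, hQ7⟩, hQ8⟩⟩ :=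
    (((((((hgood.and hsmall).and e1).and e2).and e3).and e4).and e5).and (eventually_ge_atTop 2)).exists
  obtain ⟨t, htC, ht⟩ := hQ1
  have hQpos : (0 : ℝ) < Q := by
    have : 0 < Q := by omega
    exact_mod_cast this
  have hQ1' : (1 : ℝ) ≤ Q := by
    have : 1 ≤ Q := by omega
    exact_mod_cast this
  set X : ℝ := ((⌊(Q : ℝ) * x⌋ : ℝ) + (t : ℝ)) / (Q : ℝ) with hX
  -- distance of X to x
  have hXx : |X - x| ≤ ((C : ℝ) + 1) / Q := by
    have h5 : X - x = ((t : ℝ) - Int.fract ((Q : ℝ) * x)) / Q := by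
      rw [hX, Int.fract]
      field_simp
      ring
    rw [h5, abs_div, abs_of_pos hQpos]
    refine div_le_div_of_nonneg_right ?_ hQpos.le
    have h6 := Int.fract_nonneg ((Q : ℝ) * x)
    have h7 := Int.fract_lt_one ((Q : ℝ) * x)
    have h8 : (0 : ℝ) ≤ t := Nat.cast_nonneg _
    have h9 : (t : ℝ) ≤ C := by exact_mod_cast htC.le
    rw [abs_le]
    constructor <;> linarith
  have hXr : |X - x| < r := lt_of_le_of_lt hXx hQ4
  have hgX : |g X - g x| ≤ L * ((C : ℝ) + 1) / Q := by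
    calc |g X - g x| ≤ L * |X - x| := h4 X hXr
      _ ≤ L * (((C : ℝ) + 1) / Q) := mul_le_mul_of_nonneg_left hXx hL.le
      _ = _ := by ring
  -- the new point
  set N : ℕ := 2 * Q ^ (16 * (n + 1)) with hN
  have hN1 : 1 ≤ N := by
    have : 0 < Q ^ (16 * (n + 1)) := by positivity
    omega
  obtain ⟨y', hy1, hy2, hy3⟩ := happ N hN1 (g X) (insert (g X) (g '' {x : ℝ | ∃ J, wr f J (x : ℂ) = 0}))
    ((hbc.image g).insert _)
  have hNr : (N : ℝ) = 2 * (Q : ℝ) ^ (16 * (n + 1)) := by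
    rw [hN]
    push_cast
    ring
  have hQpow : (Q : ℝ) ≤ (Q : ℝ) ^ (16 * (n + 1)) := le_self_pow₀ hQ1' (by omega)
  have hNQ : 1 / (N : ℝ) ≤ 1 / (Q : ℝ) := by
    refine one_div_le_one_div_of_le hQpos ?_
    rw [hNr]
    linarith
  have hy'x : |y' - g x| ≤ L' / Q := by
    calc |y' - g x| = |(y' - g X) + (g X - g x)| := by ring_nf
      _ ≤ |y' - g X| + |g X - g x| := abs_add_le _ _
      _ ≤ 1 / Q + L * ((C : ℝ) + 1) / Q := add_le_add (hy1.trans hNQ) hgX
      _ = L' / Q := by rw [hL']; ring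
  have hy'r : |y' - g x| < r := lt_of_le_of_lt hy'x hQ3
  have hgXr : |g X - g x| < r := by
    refine lt_of_le_of_lt hgX (lt_of_le_of_lt ?_ hQ3)
    refine div_le_div_of_nonneg_right ?_ hQpos.le
    rw [hL']
    linarith
  have hgy : g (θ y') = y' := h1 y' hy'r
  have hθX : θ (g X) = X := h3 X hXr
  have hθx : θ (g x) = x := h3 x (by simpa using hr)
  have hXeq : ((⌊(Q : ℝ) * x⌋ + (t : ℤ) : ℤ) : ℝ) / (Q : ℝ) = X := by
    rw [hX]
    push_cast
    ring
  refine ⟨⌊(Q : ℝ) * x⌋ + (t : ℤ), Q, hQ8, θ y', ⟨?_, ?_, ?_⟩, ?_, ?_, ?_⟩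
  · -- G1
    intro J hJ
    apply hy2
    exact Set.mem_insert_of_mem _ ⟨θ y', ⟨J, hJ⟩, hgy⟩
  · -- G2
    have hNpos : (0 : ℝ) < N := by exact_mod_cast hN1
    refine ⟨c₀ / N, by positivity, ?_⟩
    intro a b hb
    rw [hgy, div_div]
    exact hy3 a b hb
  · -- G3
    intro b hb
    have hbpos : (0 : ℝ) < b := by exact_mod_cast hb
    have hb1 : (1 : ℝ) ≤ b := by exact_mod_cast hb
    rw [hgy]
    by_cases hbQ : b < Q ^ (n + 1)
    · by_cases hQb : Q ≤ b ^ 8
      · -- middle range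
        refine ⟨1 / (2 * (b : ℝ) ^ 16), ?_, ?_⟩
        · rw [div_lt_div_iff₀ (by positivity) (by positivity)]
          have hb16 : (0 : ℝ) < (b : ℝ) ^ 16 := by positivity
          have hb20 : (b : ℝ) ^ 16 ≤ (b : ℝ) ^ 20 := pow_le_pow_right₀ hb1 (by norm_num)
          nlinarith
        · intro a
          have h5 := ht a b hb hQb hbQ
          have h6 : |g X - (a : ℝ) / b| ≤ |y' - (a : ℝ) / b| + |y' - g X| := by
            have : g X - (a : ℝ) / b = (y' - (a : ℝ) / b) - (y' - g X) := by ring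
            rw [this]
            exact abs_sub _ _
          have h7 : 1 / (N : ℝ) ≤ 1 / (2 * (b : ℝ) ^ 16) := by
            refine one_div_le_one_div_of_le (by positivity) ?_
            rw [hNr]
            refine mul_le_mul_of_nonneg_left ?_ (by norm_num)
            have h8 : (b : ℝ) ≤ (Q : ℝ) ^ (n + 1) := by exact_mod_cast hbQ.le
            calc (b : ℝ) ^ 16 ≤ ((Q : ℝ) ^ (n + 1)) ^ 16 := pow_le_pow_left₀ hbpos.le h8 16
              _ = (Q : ℝ) ^ (16 * (n + 1)) := by rw [← pow_mul]; ring_nf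
          have h9 : 1 / (b : ℝ) ^ 16 = 1 / (2 * (b : ℝ) ^ 16) + 1 / (2 * (b : ℝ) ^ 16) := by
            field_simp
            norm_num
          linarith
      · -- b ^ 8 < Q
        push Not at hQb
        by_cases hbB : b < B₀
        · obtain ⟨μ, hμ1, hμ2⟩ := hQ2 b (Finset.mem_range.mpr hbB) hb
          exact ⟨μ, hμ1, fun a => hμ2 a y' hy'x⟩
        · push Not at hbB
          have hbB' : (L' + κ + 1) / c < (b : ℝ) := by
            refine lt_of_lt_of_le hB₀ ?_
            exact_mod_cast hbB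
          rw [div_lt_iff₀ hc] at hbB'
          have hQb' : (b : ℝ) ^ 8 ≤ (Q : ℝ) := by exact_mod_cast hQb.le
          refine ⟨c / (b : ℝ) ^ 3 - L' / (b : ℝ) ^ 8, ?_, ?_⟩
          · have h5 : c / (b : ℝ) ^ 3 - L' / (b : ℝ) ^ 8 = (c * (b : ℝ) ^ 5 - L') / (b : ℝ) ^ 8 := by
              field_simp
            have h6 : (b : ℝ) ≤ (b : ℝ) ^ 5 := le_self_pow₀ hb1 (by norm_num)
            have h7 : κ + 1 ≤ c * (b : ℝ) ^ 5 - L' := by nlinarith
            rw [h5]
            calc κ / (b : ℝ) ^ 20 ≤ κ / (b : ℝ) ^ 8 := by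
                  refine div_le_div_of_nonneg_left hκ0.le (by positivity) ?_
                  exact pow_le_pow_right₀ hb1 (by norm_num)
              _ < (c * (b : ℝ) ^ 5 - L') / (b : ℝ) ^ 8 := by
                  refine div_lt_div_of_pos_right ?_ (by positivity)
                  linarith
          · intro a
            have h5 := hG2 a b hb
            have h6 : |g x - (a : ℝ) / b| ≤ |y' - (a : ℝ) / b| + |y' - g x| := by
              have : g x - (a : ℝ) / b = (y' - (a : ℝ) / b) - (y' - g x) := by ring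
              rw [this]
              exact abs_sub _ _
            have h7 : L' / (Q : ℝ) ≤ L' / (b : ℝ) ^ 8 :=
              div_le_div_of_nonneg_left hL'pos.le (by positivity) hQb'
            linarith
    · -- b ≥ Q ^ (n+1)
      push Not at hbQ
      have hbQ' : (Q : ℝ) ^ (n + 1) ≤ (b : ℝ) := by exact_mod_cast hbQ
      refine ⟨c₀ / ((N : ℝ) * (b : ℝ) ^ 3), ?_, fun a => hy3 a b hb⟩
      have h5 : (N : ℝ) ≤ 2 * (b : ℝ) ^ 16 := by
        rw [hNr]
        refine mul_le_mul_of_nonneg_left ?_ (by norm_num)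
        calc (Q : ℝ) ^ (16 * (n + 1)) = ((Q : ℝ) ^ (n + 1)) ^ 16 := by rw [← pow_mul]; ring_nf
          _ ≤ (b : ℝ) ^ 16 := pow_le_pow_left₀ (by positivity) hbQ' 16
      have hNpos : (0 : ℝ) < N := by exact_mod_cast hN1
      have hbgt : 2 * κ / c₀ < (b : ℝ) := by
        refine lt_of_lt_of_le hQ7 (le_trans ?_ hbQ')
        exact le_self_pow₀ hQ1' (by omega)
      rw [div_lt_iff₀ hc₀] at hbgt
      rw [div_lt_div_iff₀ (by positivity) (by positivity)]
      calc κ * ((N : ℝ) * (b : ℝ) ^ 3) ≤ κ * ((2 * (b : ℝ) ^ 16) * (b : ℝ) ^ 3) := by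
            refine mul_le_mul_of_nonneg_left ?_ hκ0.le
            exact mul_le_mul_of_nonneg_right h5 (by positivity)
        _ = (2 * κ) * (b : ℝ) ^ 19 := by ring
        _ < (b * c₀) * (b : ℝ) ^ 19 := mul_lt_mul_of_pos_right hbgt (by positivity)
        _ = c₀ * (b : ℝ) ^ 20 := by ring
  · -- distance to x
    calc |θ y' - x| = |θ y' - θ (g x)| := by rw [hθx]
      _ ≤ K * |y' - g x| := h2 y' (g x) hy'r (by simpa using hr)
      _ ≤ K * (L' / Q) := mul_le_mul_of_nonneg_left hy'x hK.le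
      _ = K * L' / Q := by ring
      _ < ε := hQ5
  · rw [hXeq]
    intro h
    apply hy2
    rw [← hgy, h]
    exact Set.mem_insert _ _
  · rw [hXeq]
    calc |θ y' - X| = |θ y' - θ (g X)| := by rw [hθX]
      _ ≤ K * |y' - g X| := h2 y' (g X) hy'r hgXr
      _ ≤ K * (1 / N) := mul_le_mul_of_nonneg_left hy1 hK.le
      _ < 1 / (Q : ℝ) ^ n := by
          have hNpos : (0 : ℝ) < N := by exact_mod_cast hN1
          rw [mul_one_div, div_lt_div_iff₀ hNpos (by positivity), one_mul, hNr]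
          have h5 : K * (Q : ℝ) ^ n < (Q : ℝ) * (Q : ℝ) ^ n := mul_lt_mul_of_pos_right hQ6 (by positivity)
          have h6 : (Q : ℝ) * (Q : ℝ) ^ n ≤ (Q : ℝ) ^ (16 * (n + 1)) := by
            rw [← pow_succ']
            exact pow_le_pow_right₀ hQ1' (by omega)
          have h7 : (0 : ℝ) < (Q : ℝ) ^ (16 * (n + 1)) := by positivity
          linarith

/-- The main theorem. -/
theorem main {f : ℂ → ℂ} (hf : Differentiable ℂ f) (hreal : ∀ x : ℝ, (f (x : ℂ)).im = 0)
    (hnp : ¬ ∃ p : Polynomial ℂ, ∀ z : ℂ, f z = p.eval z) :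
    ∃ x : ℝ, Liouville x ∧ ¬ Liouville (f (x : ℂ)).re := by
  set g : ℝ → ℝ := fun x => (f (x : ℂ)).re with hgdef
  have hg : ∀ x : ℝ, f (x : ℂ) = (g x : ℂ) := by
    intro x
    apply Complex.ext
    · simp [hgdef]
    · simp [hreal x]
  have hgc : Continuous g := Complex.continuous_re.comp (hf.continuous.comp Complex.continuous_ofReal)
  obtain ⟨κ, hκ0, hκ, x₀, hx₀⟩ := exists_gen hf hg hnp
  set S : Set ℝ := {x | Gen f g κ x} with hS
  set Y : Set ℝ := closure S with hY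
  -- the bound on Y
  have hYb : ∀ x ∈ Y, ∀ (a : ℤ) (b : ℕ), 1 ≤ b → κ / (b : ℝ) ^ 20 ≤ |g x - (a : ℝ) / (b : ℝ)| := by
    intro x hx a b hb
    have hcl : IsClosed {x : ℝ | κ / (b : ℝ) ^ 20 ≤ |g x - (a : ℝ) / (b : ℝ)|} :=
      isClosed_le continuous_const (by fun_prop)
    have hsub : S ⊆ {x : ℝ | κ / (b : ℝ) ^ 20 ≤ |g x - (a : ℝ) / (b : ℝ)|} := by
      intro x hx
      obtain ⟨μ, hμ1, hμ2⟩ := (hx : Gen f g κ x).G3 b hb
      exact hμ1.le.trans (hμ2 a)
    exact closure_minimal hsub hcl hx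
  have hYclosed : IsClosed Y := isClosed_closure
  have : CompleteSpace Y := hYclosed.completeSpace_coe
  -- the open dense sets
  set U : ℕ → Set Y := fun n => {x : Y | ∃ (p : ℤ) (q : ℕ), 2 ≤ q ∧ (x : ℝ) ≠ (p : ℝ) / (q : ℝ) ∧
      |(x : ℝ) - (p : ℝ) / (q : ℝ)| < 1 / (q : ℝ) ^ n} with hU
  have hUo : ∀ n, IsOpen (U n) := by
    intro n
    have : U n = ⋃ (p : ℤ), ⋃ (q : ℕ), ⋃ (_ : 2 ≤ q), {x : Y | (x : ℝ) ≠ (p : ℝ) / (q : ℝ)} ∩
        {x : Y | |(x : ℝ) - (p : ℝ) / (q : ℝ)| < 1 / (q : ℝ) ^ n} := by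
      ext x
      simp only [hU, Set.mem_ofPred_eq, Set.mem_iUnion, Set.mem_inter_iff, exists_prop]
    rw [this]
    refine isOpen_iUnion fun p => isOpen_iUnion fun q => isOpen_iUnion fun _ => IsOpen.inter ?_ ?_
    · exact isOpen_ne_fun continuous_subtype_val continuous_const
    · exact isOpen_lt (by fun_prop) continuous_const
  have hUd : ∀ n, Dense (U n) := by
    intro n
    rw [Metric.dense_iff]
    intro x r hr
    have hx : (x : ℝ) ∈ closure S := x.2
    obtain ⟨x₁, hx₁S, hx₁⟩ := Metric.mem_closure_iff.mp hx (r / 2) (by positivity)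
    obtain ⟨p, q, hq, x', hx'G, hx'1, hx'2, hx'3⟩ := gen_step hf hg hnp hκ0 hκ hx₁S n (show 0 < r / 2 by positivity)
    have hx'Y : x' ∈ Y := subset_closure hx'G
    refine ⟨⟨x', hx'Y⟩, ?_, ?_⟩
    · rw [Metric.mem_ball, Subtype.dist_eq]
      calc dist x' (x : ℝ) ≤ dist x' x₁ + dist x₁ (x : ℝ) := dist_triangle _ _ _
        _ < r / 2 + r / 2 := by
            refine add_lt_add ?_ ?_
            · rw [Real.dist_eq]; exact hx'1
            · rw [dist_comm]; exact hx₁
        _ = r := by ring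
    · exact ⟨p, q, hq, hx'2, hx'3⟩
  have hdense : Dense (⋂ n, U n) := dense_iInter_of_isOpen_nat hUo hUd
  have : Nonempty Y := ⟨⟨x₀, subset_closure hx₀⟩⟩
  obtain ⟨x, hx⟩ := hdense.nonempty
  refine ⟨(x : ℝ), ?_, ?_⟩
  · intro n
    obtain ⟨p, q, hq, h1, h2⟩ := Set.mem_iInter.mp hx n
    refine ⟨p, (q : ℤ), by exact_mod_cast hq, ?_, ?_⟩
    · rw [Int.cast_natCast]
      exact h1
    · rw [Int.cast_natCast]
      exact h2
  · intro hL
    -- contradiction with the bound
    obtain ⟨m, hm⟩ : ∃ m : ℕ, 1 / κ < 2 ^ m := pow_unbounded_of_one_lt _ (by norm_num)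
    obtain ⟨a, b, hb, _, hlt⟩ := hL (20 + m)
    obtain ⟨b', rfl⟩ : ∃ b' : ℕ, b = (b' : ℤ) := ⟨b.toNat, by omega⟩
    have hb' : 2 ≤ b' := by exact_mod_cast hb
    have hbr : (2 : ℝ) ≤ (b' : ℝ) := by exact_mod_cast hb'
    have h1 := hYb x x.2 a b' (by omega)
    have h2 : |g x - (a : ℝ) / (b' : ℝ)| < 1 / (b' : ℝ) ^ (20 + m) := by
      rw [Int.cast_natCast] at hlt
      exact hlt
    have h3 : κ / (b' : ℝ) ^ 20 < 1 / (b' : ℝ) ^ (20 + m) := lt_of_le_of_lt h1 h2
    have hbpos : (0 : ℝ) < b' := by linarith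
    rw [pow_add, ← div_div, div_lt_div_iff₀ (by positivity) (by positivity)] at h3
    have h4 : (2 : ℝ) ^ m ≤ (b' : ℝ) ^ m := pow_le_pow_left₀ (by norm_num) hbr m
    have h5 : κ * (b' : ℝ) ^ m < 1 := by
      have h6 : (0 : ℝ) < (b' : ℝ) ^ 20 := by positivity
      have h7 : κ * (b' : ℝ) ^ m * (b' : ℝ) ^ 20 < 1 * (b' : ℝ) ^ 20 := by
        have h8 : 1 / (b' : ℝ) ^ 20 * (b' : ℝ) ^ 20 = 1 := by field_simp
        nlinarith
      exact lt_of_mul_lt_mul_right h7 h6.le
    rw [div_lt_iff₀ hκ0] at hm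
    nlinarith

end Pool.Agent.Lib.MP_cde753_nt
end
end
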